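import Pool.Agent.H.MP_40f8bf_an.Map

set_option autoImplicit false

open MeasureTheory Filter Topology
open scoped ContDiff

namespace Pool.Agent.H.MP_40f8bf_an

/-! ### The attracting set -/

/-- The trapping region `|x| < 1/4`. -/
def trap : Set (Torus 3) := {p | 0 < cC (p 2)}

lemma isOpen_trap : IsOpen trap :=
  isOpen_lt continuous_const (continuous_cC.comp (continuous_apply 2))

lemma closure_trap_subset : closure trap ⊆ {p | 0 ≤ cC (p 2)} := by
  apply closure_minimal
  · intro p hp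
    have h : 0 < cC (p 2) := hp
    exact h.le
  · exact isClosed_le continuous_const (continuous_cC.comp (continuous_apply 2))

lemma exists_small_rep (x : AddCircle (1 : ℝ)) : ∃ y : ℝ, |y| ≤ 1 / 2 ∧ x = y := by
  obtain ⟨t, rfl⟩ := QuotientAddGroup.mk_surjective x
  refine ⟨t - round t, ?_, ?_⟩
  · exact abs_sub_round t
  · show (t : AddCircle (1 : ℝ)) = ((t - round t : ℝ) : AddCircle (1 : ℝ))
    rw [← sub_eq_zero, ← AddCircle.coe_sub, AddCircle.coe_eq_zero_iff]
    exact ⟨round t, by simp⟩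

lemma cos_nonneg_iff_small {y : ℝ} (hy : |y| ≤ 1 / 2) (h : 0 ≤ Real.cos (2 * Real.pi * y)) :
    |y| ≤ 1 / 4 := by
  by_contra hcon
  push Not at hcon
  have h1 : Real.cos (2 * Real.pi * y) = Real.cos (2 * Real.pi * |y|) := by
    rcases abs_cases y with ⟨e, _⟩ | ⟨e, _⟩
    · rw [e]
    · rw [e, show 2 * Real.pi * -y = -(2 * Real.pi * y) by ring, Real.cos_neg]
  have hpi := Real.pi_pos
  have h2 : Real.cos (2 * Real.pi * |y|) < 0 := by
    apply Real.cos_neg_of_pi_div_two_lt_of_lt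
    · nlinarith
    · nlinarith
  linarith

lemma cos_pos_of_small {y : ℝ} (hy : |y| < 1 / 4) : 0 < Real.cos (2 * Real.pi * y) := by
  obtain ⟨h1, h2⟩ := abs_lt.mp hy
  have hpi := Real.pi_pos
  apply Real.cos_pos_of_mem_Ioo
  constructor <;> nlinarith

lemma fib_abs_lt {a y : ℝ} (ha : 0.66 ≤ a) (ha' : a ≤ 1.65) (hy : |y| ≤ 1 / 4) :
    |y + hR a y| < 1 / 4 := by
  obtain ⟨h1, h2⟩ := abs_le.mp hy
  have hm := (strictMono_fib ha ha').monotone
  have hpi := Real.pi_pos
  have h3 := hm h2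
  have h4 := hm h1
  simp only [hR_neg, hR_quarter] at h3 h4
  have h5 : 0 < 1 / (100 * Real.pi) := by positivity
  rw [abs_lt]
  constructor <;> linarith

lemma fFun_two (p : Torus 3) : fFun p 2 = p 2 + ((hT p : ℝ) : AddCircle (1 : ℝ)) := rfl

lemma fFun_mem_trap {p : Torus 3} (hp : 0 ≤ cC (p 2)) : fFun p ∈ trap := by
  obtain ⟨y, hy, hpy⟩ := exists_small_rep (p 2)
  show 0 < cC (fFun p 2)
  rw [hpy, cC_coe] at hp
  have h1 := cos_nonneg_iff_small hy hp
  rw [fFun_two, hT_eq p y hpy, hpy, ← AddCircle.coe_add, cC_coe]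
  exact cos_pos_of_small (fib_abs_lt (aT_bounds p).1 (aT_bounds p).2 h1)

lemma image_closure_trap : fT.toHomeo '' closure trap ⊆ trap := by
  rintro _ ⟨p, hp, rfl⟩
  exact fFun_mem_trap (closure_trap_subset hp)

/-- The attracting set. -/
def Lam : Set (Torus 3) := ⋂ n : ℕ, fT.toHomeo^[n] '' trap

lemma image_trap : fT.toHomeo '' trap ⊆ trap :=
  (Set.image_mono subset_closure).trans image_closure_trap

lemma iterate_succ_image (n : ℕ) (S : Set (Torus 3)) :
    fT.toHomeo^[n + 1] '' S = fT.toHomeo^[n] '' (fT.toHomeo '' S) := by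
  rw [Function.iterate_succ, Set.image_comp]

lemma iterate_succ_image' (n : ℕ) (S : Set (Torus 3)) :
    fT.toHomeo^[n + 1] '' S = fT.toHomeo '' (fT.toHomeo^[n] '' S) := by
  rw [Function.iterate_succ', Set.image_comp]

lemma iterate_image_succ_subset (n : ℕ) :
    fT.toHomeo^[n + 1] '' trap ⊆ fT.toHomeo^[n] '' trap := by
  rw [iterate_succ_image]
  exact Set.image_mono image_trap

lemma Lam_eq_closure : Lam = ⋂ n : ℕ, fT.toHomeo^[n] '' closure trap := by
  apply Set.Subset.antisymm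
  · exact Set.iInter_mono fun n => Set.image_mono subset_closure
  · intro p hp
    rw [Set.mem_iInter] at hp
    rw [Lam, Set.mem_iInter]
    intro n
    have h := hp (n + 1)
    rw [iterate_succ_image] at h
    exact Set.image_mono image_closure_trap h

lemma isCompact_Lam : IsCompact Lam := by
  rw [Lam_eq_closure]
  apply IsClosed.isCompact
  apply isClosed_iInter
  intro n
  exact (isClosed_closure.isCompact.image (fT.toHomeo.continuous.iterate n)).isClosed

lemma zero_mem_trap {p : Torus 3} (hp : p 2 = 0) : p ∈ trap := by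
  show 0 < cC (p 2)
  rw [hp, cC_zero]
  exact one_pos

lemma hT_zero {p : Torus 3} (hp : p 2 = 0) : hT p = 0 := by
  unfold hT
  rw [hp, sC_zero]
  simp

lemma fFun_two_zero {p : Torus 3} (hp : p 2 = 0) : fFun p 2 = 0 := by
  rw [fFun_two, hT_zero hp, hp]
  simp

lemma exists_preimage_zero {p : Torus 3} (hp : p 2 = 0) : ∃ q, q 2 = 0 ∧ fT.toHomeo q = p := by
  refine ⟨![p 1, p 0 - p 1, 0], rfl, ?_⟩
  show fFun _ = p
  funext i
  fin_cases i
  · show p 1 + (p 0 - p 1) = p 0
    abel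
  · rfl
  · show fFun _ 2 = p 2
    rw [fFun_two_zero rfl, hp]

lemma mem_Lam_of_zero {p : Torus 3} (hp : p 2 = 0) : p ∈ Lam := by
  rw [Lam, Set.mem_iInter]
  intro n
  induction n generalizing p with
  | zero => exact ⟨p, zero_mem_trap hp, rfl⟩
  | succ n ih =>
    obtain ⟨q, hq, hqp⟩ := exists_preimage_zero hp
    rw [iterate_succ_image']
    exact ⟨q, ih hq, hqp⟩

lemma image_Lam : fT.toHomeo '' Lam = Lam := by
  apply Set.Subset.antisymm
  · rintro _ ⟨p, hp, rfl⟩
    rw [Lam, Set.mem_iInter] at hp ⊢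
    intro n
    have h := Set.mem_image_of_mem fT.toHomeo (hp n)
    rw [← iterate_succ_image'] at h
    exact iterate_image_succ_subset n h
  · intro p hp
    rw [Lam, Set.mem_iInter] at hp
    refine ⟨fT.toHomeo.symm p, ?_, fT.toHomeo.apply_symm_apply p⟩
    rw [Lam, Set.mem_iInter]
    intro n
    have h := hp (n + 1)
    rw [iterate_succ_image'] at h
    obtain ⟨q, hq, hqp⟩ := h
    rw [← hqp, fT.toHomeo.symm_apply_apply]
    exact hq

lemma isAttractingSet_Lam : IsAttractingSet fT Lam :=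
  ⟨⟨0, mem_Lam_of_zero rfl⟩, isCompact_Lam, image_Lam, trap, isOpen_trap, image_closure_trap, rfl⟩

/-! ### Dissipativity -/

lemma exists_leaving : ∃ p : Torus 3, cC (p 2) < 0 ∧ fFun p ∈ trap := by
  have hc : Continuous fun t : ℝ => (![0, 0, (t : AddCircle (1 : ℝ))] : Torus 3) := by
    refine continuous_pi fun i => ?_
    fin_cases i
    · exact continuous_const
    · exact continuous_const
    · exact AddCircle.continuous_mk' 1
  have hg : Continuous fun t : ℝ => cC (fFun (![0, 0, (t : AddCircle (1 : ℝ))] : Torus 3) 2) :=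
    continuous_cC.comp ((continuous_apply 2).comp (continuous_fFun.comp hc))
  have h0 : 0 < cC (fFun (![0, 0, ((1 / 4 : ℝ) : AddCircle (1 : ℝ))] : Torus 3) 2) := by
    apply fFun_mem_trap
    show 0 ≤ cC ((1 / 4 : ℝ) : AddCircle (1 : ℝ))
    rw [cC_coe, show 2 * Real.pi * (1 / 4) = Real.pi / 2 by ring, Real.cos_pi_div_two]
  have h1 : ∀ᶠ t : ℝ in 𝓝[>] (1 / 4 : ℝ),
      0 < cC (fFun (![0, 0, (t : AddCircle (1 : ℝ))] : Torus 3) 2) :=
    (hg.tendsto (1 / 4)).mono_left nhdsWithin_le_nhds |>.eventually (lt_mem_nhds h0)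
  have h2 : ∀ᶠ t : ℝ in 𝓝[>] (1 / 4 : ℝ), t ∈ Set.Ioo (1 / 4 : ℝ) (1 / 2) :=
    Ioo_mem_nhdsGT (by norm_num)
  obtain ⟨t, ht1, ht2⟩ := (h1.and h2).exists
  refine ⟨![0, 0, (t : AddCircle (1 : ℝ))], ?_, ht1⟩
  show cC (t : AddCircle (1 : ℝ)) < 0
  rw [cC_coe]
  have hpi := Real.pi_pos
  apply Real.cos_neg_of_pi_div_two_lt_of_lt
  · nlinarith [ht2.1]
  · nlinarith [ht2.2]

lemma dissipative_fT : Dissipative fT := by
  rintro ⟨ν, hfin, hpres, _, hac⟩
  set W : Set (Torus 3) := fT.toHomeo ⁻¹' trap ∩ {p | cC (p 2) < 0} with hW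
  have hopen : IsOpen W := (isOpen_trap.preimage fT.toHomeo.continuous).inter
    (isOpen_lt (continuous_cC.comp (continuous_apply 2)) continuous_const)
  have hne : W.Nonempty := by
    obtain ⟨p, hp1, hp2⟩ := exists_leaving
    exact ⟨p, hp2, hp1⟩
  have hpos : 0 < volume W := hopen.measure_pos volume hne
  have hsub : trap ⊆ fT.toHomeo ⁻¹' trap := fun p hp => image_trap ⟨p, hp, rfl⟩
  have hmeas : MeasurableSet trap := isOpen_trap.measurableSet
  have h1 : ν (fT.toHomeo ⁻¹' trap) = ν trap := hpres.measure_preimage hmeas.nullMeasurableSet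
  have h2 : ν (fT.toHomeo ⁻¹' trap \ trap) = 0 := by
    rw [measure_sdiff hsub hmeas.nullMeasurableSet (measure_ne_top ν _), h1, tsub_self]
  have h3 : W ⊆ fT.toHomeo ⁻¹' trap \ trap := by
    rintro p ⟨hp1, hp2⟩
    refine ⟨hp1, fun h => ?_⟩
    have h4 : 0 < cC (p 2) := h
    have h5 : cC (p 2) < 0 := hp2
    linarith
  have h4 : ν W = 0 := measure_mono_null h3 h2
  exact hpos.ne' (hac h4)

end Pool.Agent.H.MP_40f8bf_an
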