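import Mathlib

/-!
Definitions for problem MP_40f8bf_an, question Q2: diffeomorphisms of the torus, invariant
splittings, dominated splittings, attracting sets, unstable manifolds and SRB measures.
-/

set_option autoImplicit false

open MeasureTheory Filter Topology
open scoped ContDiff

namespace Pool.Agent.H.MP_40f8bf_an

/-- The flat torus `ℝ^d / ℤ^d`, a closed Riemannian manifold. -/
abbrev Torus (d : ℕ) : Type := Fin d → AddCircle (1 : ℝ)

/-- The tangent space of the torus at any point (the tangent bundle is `Torus d × Vec d`). -/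
abbrev Vec (d : ℕ) : Type := EuclideanSpace ℝ (Fin d)

/-- The covering projection `ℝ^d → ℝ^d / ℤ^d`. -/
def proj {d : ℕ} (x : Vec d) : Torus d := fun i => (x i : AddCircle (1 : ℝ))

/-- The representative in `[0, 1)^d` of a point of the torus. -/
noncomputable def rep {d : ℕ} (p : Torus d) : Vec d :=
  WithLp.toLp 2 fun i => (AddCircle.equivIco (1 : ℝ) 0 (p i) : ℝ)

/-- A `C^∞` diffeomorphism of the torus, given with a lift to `ℝ^d`: a homeomorphism whose lift is
smooth with invertible derivative. -/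
structure TorusDiffeo (d : ℕ) where
  /-- the diffeomorphism -/
  toHomeo : Torus d ≃ₜ Torus d
  /-- its lift to the universal cover -/
  lift : Vec d → Vec d
  smooth : ContDiff ℝ ∞ lift
  isLift : ∀ x, proj (lift x) = toHomeo (proj x)
  bijective_fderiv : ∀ x, Function.Bijective (fderiv ℝ lift x)

variable {d : ℕ}

/-- The derivative at `p` of the `n`-th iterate of `f`. -/
noncomputable def D (f : TorusDiffeo d) (n : ℕ) (p : Torus d) : Vec d →L[ℝ] Vec d :=
  fderiv ℝ (f.lift^[n]) (rep p)

/-- `f` is dissipative: it preserves no (finite) measure equivalent to the volume. -/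
def Dissipative (f : TorusDiffeo d) : Prop :=
  ¬ ∃ ν : Measure (Torus d), IsFiniteMeasure ν ∧ MeasurePreserving f.toHomeo ν ν ∧
    ν ≪ volume ∧ volume ≪ ν

/-- `Λ` is a compact invariant attracting set of `f`. -/
def IsAttractingSet (f : TorusDiffeo d) (Λ : Set (Torus d)) : Prop :=
  Λ.Nonempty ∧ IsCompact Λ ∧ f.toHomeo '' Λ = Λ ∧
    ∃ U : Set (Torus d), IsOpen U ∧ f.toHomeo '' closure U ⊆ U ∧
      Λ = ⋂ n : ℕ, f.toHomeo^[n] '' U

/-- `E` is a continuous `Df`-invariant subbundle over `Λ` of the tangent bundle (a family of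
subspaces is continuous if the orthogonal projection onto it is). -/
structure IsInvariantSubbundle (f : TorusDiffeo d) (Λ : Set (Torus d))
    (E : Torus d → Submodule ℝ (Vec d)) : Prop where
  continuousOn : ContinuousOn (fun p => (E p).starProjection) Λ
  invariant : ∀ p ∈ Λ, (E p).map (D f 1 p : Vec d →ₗ[ℝ] Vec d) = E (f.toHomeo p)

/-- `F` dominates `E` over `Λ`: there are `C > 0` and `0 < r < 1` with
`‖Dfⁿ v‖ ≤ C rⁿ ‖Dfⁿ w‖` for all unit vectors `v ∈ E`, `w ∈ F` and all `n ≥ 0`. -/
def Dominates (f : TorusDiffeo d) (Λ : Set (Torus d)) (E F : Torus d → Submodule ℝ (Vec d)) :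
    Prop :=
  ∃ C r : ℝ, 0 < C ∧ 0 < r ∧ r < 1 ∧ ∀ p ∈ Λ, ∀ (n : ℕ), ∀ v ∈ E p, ∀ w ∈ F p,
    ‖v‖ = 1 → ‖w‖ = 1 → ‖D f n p v‖ ≤ C * r ^ n * ‖D f n p w‖

/-- `f` has the stable bundle `Es` and the center-unstable bundle `Ecu` over `Λ`. -/
structure IsStableCenterUnstable (f : TorusDiffeo d) (Λ : Set (Torus d))
    (Es Ecu : Torus d → Submodule ℝ (Vec d)) : Prop where
  subbundle_s : IsInvariantSubbundle f Λ Es
  subbundle_cu : IsInvariantSubbundle f Λ Ecu
  isCompl : ∀ p ∈ Λ, IsCompl (Es p) (Ecu p)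
  nontrivial : ∀ p ∈ Λ, Es p ≠ ⊥ ∧ Ecu p ≠ ⊥
  contracting : ∃ C r : ℝ, 0 < C ∧ 0 < r ∧ r < 1 ∧ ∀ p ∈ Λ, ∀ (n : ℕ), ∀ v ∈ Es p,
    ‖v‖ = 1 → ‖D f n p v‖ ≤ C * r ^ n
  dominated : Dominates f Λ Es Ecu

/-- The bundle `E` has a dominated subsplitting `E = E₁ ⊕ E₂` over `Λ`. -/
def HasDominatedSubsplitting (f : TorusDiffeo d) (Λ : Set (Torus d))
    (E : Torus d → Submodule ℝ (Vec d)) : Prop :=
  ∃ E₁ E₂ : Torus d → Submodule ℝ (Vec d),
    IsInvariantSubbundle f Λ E₁ ∧ IsInvariantSubbundle f Λ E₂ ∧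
      (∀ p ∈ Λ, E₁ p ≠ ⊥ ∧ E₂ p ≠ ⊥ ∧ Disjoint (E₁ p) (E₂ p) ∧ E₁ p ⊔ E₂ p = E p) ∧
      Dominates f Λ E₁ E₂

/-- The Lyapunov exponent of the tangent vector `v` at `p` exists and equals `χ`. -/
def HasExponent (f : TorusDiffeo d) (p : Torus d) (v : Vec d) (χ : ℝ) : Prop :=
  Tendsto (fun n : ℕ => Real.log ‖D f n p v‖ / n) atTop (𝓝 χ)

/-- The unstable manifold of `p`, as a set: the points whose backward orbit approaches the
backward orbit of `p` exponentially fast. -/
def unstableSet (f : TorusDiffeo d) (p : Torus d) : Set (Torus d) :=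
  {q | ∃ C c : ℝ, 0 < c ∧ ∀ n : ℕ,
    dist (f.toHomeo.symm^[n] p) (f.toHomeo.symm^[n] q) ≤ C * Real.exp (-c * n)}

/-- `μ` is an SRB measure of `f`: it is an ergodic `f`-invariant probability measure with a
positive Lyapunov exponent whose conditional measures along unstable manifolds are absolutely
continuous with respect to the Riemannian volume of these manifolds. In detail: there is a
measurable partition (the level sets of `τ`) with conditional measures `κ (τ p)` such that for
almost every `p` the unstable manifold of `p` is the image of an injective `C¹` immersion `j` of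
`ℝᵘ` in the torus with `j 0 = p`, the element of the partition containing `p` lies in the
unstable manifold and contains a neighbourhood of `p` in it, and `κ (τ p)` is absolutely continuous
with respect to the image under `j` of Lebesgue measure (which has the same null sets as the
Riemannian volume of the immersed manifold). -/
structure IsSRB (f : TorusDiffeo d) (μ : Measure (Torus d)) : Prop where
  isProbabilityMeasure : IsProbabilityMeasure μ
  ergodic : Ergodic f.toHomeo μ
  exponent : ∃ χ > 0, ∀ᵐ p ∂μ, ∃ v ≠ 0, HasExponent f p v χ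
  absolutelyContinuous : ∃ (u : ℕ) (τ : Torus d → ℝ) (κ : ProbabilityTheory.Kernel ℝ (Torus d)),
    0 < u ∧ Measurable τ ∧ ProbabilityTheory.IsMarkovKernel κ ∧
      (∀ B, MeasurableSet B → μ B = ∫⁻ p, κ (τ p) B ∂μ) ∧
      ∀ᵐ p ∂μ, κ (τ p) {q | τ q ≠ τ p} = 0 ∧
        ∃ j : (Fin u → ℝ) → Vec d, ContDiff ℝ 1 j ∧ (∀ t, Function.Injective (fderiv ℝ j t)) ∧
          Function.Injective (fun t => proj (j t)) ∧
          Set.range (fun t => proj (j t)) = unstableSet f p ∧ proj (j 0) = p ∧
          {q | τ q = τ p} ⊆ unstableSet f p ∧ {t | τ (proj (j t)) = τ p} ∈ 𝓝 0 ∧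
          κ (τ p) ≪ Measure.map (fun t => proj (j t)) volume

end Pool.Agent.H.MP_40f8bf_an
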