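import Pool.Agent.H.MP_40f8bf_an.Stable

set_option autoImplicit false

open MeasureTheory Filter Topology ProbabilityTheory
open scoped ContDiff goldenRatio

namespace Pool.Agent.H.MP_40f8bf_an

/-! ### Characters of the two-torus -/

/-- The homomorphism from the two-torus to the circle given by an integer vector. -/
noncomputable def pair (m : Fin 2 → ℤ) : Torus 2 →+ AddCircle (1 : ℝ) where
  toFun z := m 0 • z 0 + m 1 • z 1
  map_zero' := by simp
  map_add' z w := by
    simp only [Pi.add_apply, smul_add]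
    abel

lemma pair_apply (m : Fin 2 → ℤ) (z : Torus 2) : pair m z = m 0 • z 0 + m 1 • z 1 := rfl

lemma continuous_pair (m : Fin 2 → ℤ) : Continuous (pair m) := by
  show Continuous fun z : Torus 2 => m 0 • z 0 + m 1 • z 1
  fun_prop

/-- The character. -/
noncomputable def chi (m : Fin 2 → ℤ) (z : Torus 2) : ℂ := (AddCircle.toCircle (pair m z) : ℂ)

lemma continuous_chi (m : Fin 2 → ℤ) : Continuous (chi m) :=
  continuous_subtype_val.comp (AddCircle.continuous_toCircle.comp (continuous_pair m))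

lemma chi_eq (m : Fin 2 → ℤ) (z : Torus 2) : chi m z = UnitAddTorus.mFourier m z := by
  unfold chi
  rw [pair_apply, AddCircle.toCircle_add]
  simp [UnitAddTorus.mFourier, Fin.prod_univ_two]

lemma norm_chi (m : Fin 2 → ℤ) (z : Torus 2) : ‖chi m z‖ = 1 := Circle.norm_coe _

lemma surjective_pair2 {m n : Fin 2 → ℤ} (h : m 0 * n 1 - m 1 * n 0 ≠ 0) :
    Function.Surjective ((pair m).prod (pair n)) := by
  rintro ⟨s, t⟩
  obtain ⟨s, rfl⟩ := QuotientAddGroup.mk_surjective s
  obtain ⟨t, rfl⟩ := QuotientAddGroup.mk_surjective t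
  set d : ℝ := m 0 * n 1 - m 1 * n 0 with hd
  have hd0 : d ≠ 0 := by
    rw [hd]
    exact_mod_cast h
  refine ⟨![(((n 1 * s - m 1 * t) / d : ℝ) : AddCircle (1 : ℝ)),
    (((m 0 * t - n 0 * s) / d : ℝ) : AddCircle (1 : ℝ))], ?_⟩
  apply Prod.ext
  · show m 0 • (((n 1 * s - m 1 * t) / d : ℝ) : AddCircle (1 : ℝ))
      + m 1 • (((m 0 * t - n 0 * s) / d : ℝ) : AddCircle (1 : ℝ)) = (s : AddCircle (1 : ℝ))
    rw [← AddCircle.coe_zsmul, ← AddCircle.coe_zsmul, ← AddCircle.coe_add]
    congr 1
    simp only [zsmul_eq_mul]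
    field_simp
    rw [hd]
    ring
  · show n 0 • (((n 1 * s - m 1 * t) / d : ℝ) : AddCircle (1 : ℝ))
      + n 1 • (((m 0 * t - n 0 * s) / d : ℝ) : AddCircle (1 : ℝ)) = (t : AddCircle (1 : ℝ))
    rw [← AddCircle.coe_zsmul, ← AddCircle.coe_zsmul, ← AddCircle.coe_add]
    congr 1
    simp only [zsmul_eq_mul]
    field_simp
    rw [hd]
    ring

instance isProb_circle : IsProbabilityMeasure (volume : Measure (AddCircle (1 : ℝ))) :=
  ⟨by rw [AddCircle.measure_univ]; simp⟩

lemma measurePreserving_pair2 {m n : Fin 2 → ℤ} (h : m 0 * n 1 - m 1 * n 0 ≠ 0) :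
    MeasurePreserving ((pair m).prod (pair n)) (volume : Measure (Torus 2))
      ((volume : Measure (AddCircle (1 : ℝ))).prod (volume : Measure (AddCircle (1 : ℝ)))) := by
  apply AddMonoidHom.measurePreserving
  · exact (continuous_pair m).prodMk (continuous_pair n)
  · exact surjective_pair2 h
  · rw [measure_univ, measure_univ]

lemma measurePreserving_pair {m n : Fin 2 → ℤ} (h : m 0 * n 1 - m 1 * n 0 ≠ 0) :
    MeasurePreserving (pair m) (volume : Measure (Torus 2))
      (volume : Measure (AddCircle (1 : ℝ))) :=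
  measurePreserving_fst.comp (measurePreserving_pair2 h)

lemma measurePreserving_pair' {m n : Fin 2 → ℤ} (h : m 0 * n 1 - m 1 * n 0 ≠ 0) :
    MeasurePreserving (pair n) (volume : Measure (Torus 2))
      (volume : Measure (AddCircle (1 : ℝ))) :=
  measurePreserving_snd.comp (measurePreserving_pair2 h)

lemma integral_toCircle : ∫ x : AddCircle (1 : ℝ), (AddCircle.toCircle x : ℂ) = 0 := by
  have h1 : ∫ x : AddCircle (1 : ℝ), (AddCircle.toCircle (x + ((1 / 2 : ℝ) : AddCircle (1 : ℝ))) : ℂ)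
      = ∫ x : AddCircle (1 : ℝ), (AddCircle.toCircle x : ℂ) :=
    integral_add_right_eq_self (fun x : AddCircle (1 : ℝ) => (AddCircle.toCircle x : ℂ)) _
  have h2 : (AddCircle.toCircle ((1 / 2 : ℝ) : AddCircle (1 : ℝ)) : ℂ) = -1 := by
    rw [AddCircle.toCircle_apply_mk, Circle.coe_exp, div_one,
      show 2 * Real.pi * (1 / 2) = Real.pi by ring, Complex.exp_pi_mul_I]
  have h3 : ∀ x : AddCircle (1 : ℝ),
      (AddCircle.toCircle (x + ((1 / 2 : ℝ) : AddCircle (1 : ℝ))) : ℂ)
        = -(AddCircle.toCircle x : ℂ) := by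
    intro x
    rw [AddCircle.toCircle_add, Circle.coe_mul, h2]
    ring
  simp only [h3, integral_neg] at h1
  have h4 := neg_eq_self.mp h1
  exact h4

/-- The strong law of large numbers for pairwise independent characters. -/
lemma slln_chi (m : ℕ → Fin 2 → ℤ)
    (hm : ∀ j k, j ≠ k → m j 0 * m k 1 - m j 1 * m k 0 ≠ 0) :
    ∀ᵐ z : Torus 2, Tendsto (fun N : ℕ => (N : ℝ)⁻¹ • ∑ k ∈ Finset.range N, chi (m k) z)
      atTop (𝓝 0) := by
  have hF : Measurable fun x : AddCircle (1 : ℝ) => (AddCircle.toCircle x : ℂ) :=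
    (continuous_subtype_val.comp AddCircle.continuous_toCircle).measurable
  have hp : ∀ k, MeasurePreserving (pair (m k)) (volume : Measure (Torus 2))
      (volume : Measure (AddCircle (1 : ℝ))) := fun k =>
    measurePreserving_pair (hm k (k + 1) (by omega))
  have h := strong_law_ae (μ := (volume : Measure (Torus 2))) (fun k z => chi (m k) z) ?_ ?_ ?_
  · have h0 : ∫ z : Torus 2, chi (m 0) z = 0 := by
      have h1 := integral_map (μ := (volume : Measure (Torus 2)))
        (hp 0).measurable.aemeasurable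
        (f := fun x : AddCircle (1 : ℝ) => (AddCircle.toCircle x : ℂ))
        hF.aestronglyMeasurable
      rw [(hp 0).map_eq, integral_toCircle] at h1
      exact h1.symm
    rw [h0] at h
    exact h
  · apply Continuous.integrable_of_hasCompactSupport (continuous_chi _)
    exact HasCompactSupport.of_compactSpace _
  · intro j k hjk
    have h1 : IndepFun (pair (m j)) (pair (m k)) (volume : Measure (Torus 2)) := by
      rw [indepFun_iff_map_prod_eq_prod_map_map (continuous_pair _).measurable.aemeasurable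
        (continuous_pair _).measurable.aemeasurable]
      rw [(hp j).map_eq, (hp k).map_eq]
      exact (measurePreserving_pair2 (hm j k hjk)).map_eq
    exact h1.comp hF hF
  · intro k
    refine ⟨(continuous_chi _).measurable.aemeasurable, (continuous_chi _).measurable.aemeasurable,
      ?_⟩
    have e : ∀ k, Measure.map (chi (m k)) (volume : Measure (Torus 2))
        = Measure.map (fun x : AddCircle (1 : ℝ) => (AddCircle.toCircle x : ℂ)) volume := by
      intro k
      rw [← (hp k).map_eq, Measure.map_map hF (hp k).measurable]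
      rfl
    exact (e k).trans (e 0).symm

/-! ### The base automorphism -/

/-- The action of the base automorphism. -/
noncomputable def A2 : Torus 2 →+ Torus 2 where
  toFun z := ![z 0 + z 1, z 0]
  map_zero' := by
    funext i
    fin_cases i
    · exact add_zero _
    · rfl
  map_add' z w := by
    funext i
    fin_cases i
    · show (z 0 + w 0) + (z 1 + w 1) = (z 0 + z 1) + (w 0 + w 1)
      abel
    · rfl

/-- The inverse of the base automorphism. -/
noncomputable def B2 : Torus 2 →+ Torus 2 where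
  toFun z := ![z 1, z 0 - z 1]
  map_zero' := by
    funext i
    fin_cases i
    · rfl
    · exact sub_zero _
  map_add' z w := by
    funext i
    fin_cases i
    · rfl
    · show (z 0 + w 0) - (z 1 + w 1) = (z 0 - z 1) + (w 0 - w 1)
      abel

lemma A2_apply (z : Torus 2) : A2 z = ![z 0 + z 1, z 0] := rfl
lemma B2_apply (z : Torus 2) : B2 z = ![z 1, z 0 - z 1] := rfl

lemma A2_B2 (z : Torus 2) : A2 (B2 z) = z := by
  funext i
  fin_cases i
  · show z 1 + (z 0 - z 1) = z 0
    abel
  · rfl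

lemma B2_A2 (z : Torus 2) : B2 (A2 z) = z := by
  funext i
  fin_cases i
  · rfl
  · show (z 0 + z 1) - z 0 = z 1
    abel

lemma continuous_A2 : Continuous A2 := by
  refine continuous_pi fun i => ?_
  fin_cases i
  · exact (continuous_apply 0).add (continuous_apply 1)
  · exact continuous_apply 0

lemma continuous_B2 : Continuous B2 := by
  refine continuous_pi fun i => ?_
  fin_cases i
  · exact continuous_apply 1
  · exact (continuous_apply 0).sub (continuous_apply 1)

lemma measurePreserving_A2 : MeasurePreserving A2 (volume : Measure (Torus 2)) volume :=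
  AddMonoidHom.measurePreserving continuous_A2 (fun z => ⟨B2 z, A2_B2 z⟩) rfl

/-- The dual action of the automorphism. -/
def Ad (n : Fin 2 → ℤ) : Fin 2 → ℤ := ![n 0 + n 1, n 0]

/-- The dual action of the inverse. -/
def Bd (n : Fin 2 → ℤ) : Fin 2 → ℤ := ![n 1, n 0 - n 1]

lemma pair_A2 (n : Fin 2 → ℤ) (z : Torus 2) : pair n (A2 z) = pair (Ad n) z := by
  show n 0 • (z 0 + z 1) + n 1 • z 0 = (n 0 + n 1) • z 0 + n 0 • z 1
  rw [smul_add, add_smul]
  abel

lemma pair_B2 (n : Fin 2 → ℤ) (z : Torus 2) : pair n (B2 z) = pair (Bd n) z := by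
  show n 0 • z 1 + n 1 • (z 0 - z 1) = n 1 • z 0 + (n 0 - n 1) • z 1
  rw [smul_sub, sub_smul]
  abel

lemma chi_A2 (n : Fin 2 → ℤ) (z : Torus 2) : chi n (A2 z) = chi (Ad n) z := by
  unfold chi
  rw [pair_A2]

lemma chi_B2 (n : Fin 2 → ℤ) (z : Torus 2) : chi n (B2 z) = chi (Bd n) z := by
  unfold chi
  rw [pair_B2]

lemma chi_iterate_A2 (n : Fin 2 → ℤ) (k : ℕ) (z : Torus 2) :
    chi n (A2^[k] z) = chi (Ad^[k] n) z := by
  induction k generalizing n with
  | zero => rfl
  | succ k ih =>
    rw [Function.iterate_succ_apply', chi_A2, ih, Function.iterate_succ_apply]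

lemma chi_iterate_B2 (n : Fin 2 → ℤ) (k : ℕ) (z : Torus 2) :
    chi n (B2^[k] z) = chi (Bd^[k] n) z := by
  induction k generalizing n with
  | zero => rfl
  | succ k ih =>
    rw [Function.iterate_succ_apply', chi_B2, ih, Function.iterate_succ_apply]

/-- Coordinates along the two eigendirections. -/
noncomputable def cp (n : Fin 2 → ℤ) : ℝ := φ * n 0 + n 1
/-- Coordinates along the two eigendirections. -/
noncomputable def cm (n : Fin 2 → ℤ) : ℝ := ψ * n 0 + n 1

lemma det_eq (u v : Fin 2 → ℤ) :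
    (φ - ψ) * ((u 0 * v 1 - u 1 * v 0 : ℤ) : ℝ) = cp u * cm v - cm u * cp v := by
  unfold cp cm
  push_cast
  ring

lemma irrational_ne {x : ℝ} (hx : Irrational x) {n : Fin 2 → ℤ} (hn : n ≠ 0) :
    x * n 0 + n 1 ≠ 0 := by
  intro h
  by_cases h0 : n 0 = 0
  · rw [h0] at h
    have h1 : (n 1 : ℝ) = 0 := by simpa using h
    have h2 : n 1 = 0 := by exact_mod_cast h1
    apply hn
    funext i
    fin_cases i
    · exact h0
    · exact h2
  · have h1 := (hx.mul_intCast h0).add_intCast (n 1)
    rw [h] at h1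
    exact not_irrational_zero h1

lemma cp_Ad (n : Fin 2 → ℤ) : cp (Ad n) = φ * cp n := by
  show φ * ((n 0 + n 1 : ℤ) : ℝ) + (n 0 : ℤ) = φ * (φ * n 0 + n 1)
  push_cast
  linear_combination (-(n 0 : ℝ)) * Real.goldenRatio_sq

lemma cm_Ad (n : Fin 2 → ℤ) : cm (Ad n) = ψ * cm n := by
  show ψ * ((n 0 + n 1 : ℤ) : ℝ) + (n 0 : ℤ) = ψ * (ψ * n 0 + n 1)
  push_cast
  linear_combination (-(n 0 : ℝ)) * Real.goldenConj_sq

lemma cp_Bd (n : Fin 2 → ℤ) : cp (Bd n) = -ψ * cp n := by
  show φ * ((n 1 : ℤ) : ℝ) + ((n 0 - n 1 : ℤ) : ℝ) = -ψ * (φ * n 0 + n 1)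
  push_cast
  linear_combination ((n 0 : ℝ)) * Real.goldenRatio_mul_goldenConj
    + (n 1 : ℝ) * Real.goldenRatio_add_goldenConj

lemma cm_Bd (n : Fin 2 → ℤ) : cm (Bd n) = -φ * cm n := by
  show ψ * ((n 1 : ℤ) : ℝ) + ((n 0 - n 1 : ℤ) : ℝ) = -φ * (ψ * n 0 + n 1)
  push_cast
  linear_combination ((n 0 : ℝ)) * Real.goldenRatio_mul_goldenConj
    + (n 1 : ℝ) * Real.goldenRatio_add_goldenConj

lemma iterate_scale {g : (Fin 2 → ℤ) → (Fin 2 → ℤ)} {c : (Fin 2 → ℤ) → ℝ} {r : ℝ}
    (h : ∀ n, c (g n) = r * c n) (k : ℕ) (n : Fin 2 → ℤ) : c (g^[k] n) = r ^ k * c n := by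
  induction k with
  | zero => simp
  | succ k ih => rw [Function.iterate_succ_apply', h, ih]; ring

lemma det_orbit_ne {g : (Fin 2 → ℤ) → (Fin 2 → ℤ)} {r s : ℝ} (hr : ∀ n, cp (g n) = r * cp n)
    (hs : ∀ n, cm (g n) = s * cm n) (hr0 : r ≠ 0) (hs0 : s ≠ 0) (hrs : |r / s| ≠ 1)
    {n : Fin 2 → ℤ} (hn : n ≠ 0) (j k : ℕ) (hjk : j ≠ k) :
    (g^[j] n) 0 * (g^[k] n) 1 - (g^[j] n) 1 * (g^[k] n) 0 ≠ 0 := by
  intro h
  have h1 := det_eq (g^[j] n) (g^[k] n)
  rw [h, iterate_scale hr, iterate_scale hr, iterate_scale hs, iterate_scale hs] at h1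
  have h2 : cp n ≠ 0 := irrational_ne Real.goldenRatio_irrational hn
  have h3 : cm n ≠ 0 := irrational_ne Real.goldenConj_irrational hn
  have h4 : (cp n * cm n) * (r ^ j * s ^ k - s ^ j * r ^ k) = 0 := by
    push_cast at h1
    linarith
  have h5 : r ^ j * s ^ k = s ^ j * r ^ k := by
    rcases mul_eq_zero.mp h4 with h | h
    · exact absurd h (mul_ne_zero h2 h3)
    · linarith
  have h6 : (r / s) ^ j = (r / s) ^ k := by
    rw [div_pow, div_pow, div_eq_div_iff (pow_ne_zero _ hs0) (pow_ne_zero _ hs0)]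
    linarith
  have h7 : |r / s| ^ j = |r / s| ^ k := by rw [← abs_pow, ← abs_pow, h6]
  have h8 : 0 < |r / s| := abs_pos.mpr (div_ne_zero hr0 hs0)
  exact hjk (pow_right_injective₀ h8 hrs h7)

lemma ratio_ne : |φ / ψ| ≠ 1 := by
  rw [abs_div, abs_of_pos Real.goldenRatio_pos]
  have h1 := abs_conj_lt
  have h2 := abs_conj_pos
  have h3 := gold_lower
  intro h
  rw [div_eq_one_iff_eq h2.ne'] at h
  linarith

lemma ratio_ne' : |-ψ / -φ| ≠ 1 := by
  rw [neg_div_neg_eq, abs_div, abs_of_pos Real.goldenRatio_pos]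
  have h1 := abs_conj_lt
  have h3 := gold_lower
  have h4 := Real.goldenRatio_pos
  intro h
  rw [div_eq_one_iff_eq h4.ne'] at h
  linarith

lemma slln_A2 {n : Fin 2 → ℤ} (hn : n ≠ 0) :
    ∀ᵐ z : Torus 2, Tendsto (fun N : ℕ => (N : ℝ)⁻¹ • ∑ k ∈ Finset.range N, chi n (A2^[k] z))
      atTop (𝓝 0) := by
  have h := slln_chi (fun k => Ad^[k] n) (fun j k hjk =>
    det_orbit_ne cp_Ad cm_Ad Real.goldenRatio_ne_zero Real.goldenConj_ne_zero ratio_ne hn j k hjk)
  filter_upwards [h] with z hz
  simpa only [chi_iterate_A2] using hz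

lemma slln_B2 {n : Fin 2 → ℤ} (hn : n ≠ 0) :
    ∀ᵐ z : Torus 2, Tendsto (fun N : ℕ => (N : ℝ)⁻¹ • ∑ k ∈ Finset.range N, chi n (B2^[k] z))
      atTop (𝓝 0) := by
  have h := slln_chi (fun k => Bd^[k] n) (fun j k hjk =>
    det_orbit_ne cp_Bd cm_Bd (neg_ne_zero.mpr Real.goldenConj_ne_zero)
      (neg_ne_zero.mpr Real.goldenRatio_ne_zero) ratio_ne' hn j k hjk)
  filter_upwards [h] with z hz
  simpa only [chi_iterate_B2] using hz

/-! ### Ergodicity -/

lemma setIntegral_chi_eq_zero {s : Set (Torus 2)} (hs : MeasurableSet s) (hinv : A2 ⁻¹' s = s)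
    {n : Fin 2 → ℤ} (hn : n ≠ 0) : ∫ z in s, chi n z = 0 := by
  have hinvk : ∀ k : ℕ, (A2^[k]) ⁻¹' s = s := by
    intro k
    induction k with
    | zero => rfl
    | succ k ih => rw [Function.iterate_succ, Set.preimage_comp, ih, hinv]
  have hk : ∀ k : ℕ, ∫ z in s, chi n (A2^[k] z) = ∫ z in s, chi n z := by
    intro k
    have hp : MeasurePreserving (A2^[k]) (volume : Measure (Torus 2)) volume :=
      measurePreserving_A2.iterate k
    have h1 := setIntegral_map (μ := (volume : Measure (Torus 2))) (g := A2^[k]) (f := chi n) hs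
      (continuous_chi n).aestronglyMeasurable hp.measurable.aemeasurable
    rw [hp.map_eq, hinvk] at h1
    exact h1.symm
  have hint : ∀ k : ℕ, Integrable (fun z => chi n (A2^[k] z))
      ((volume : Measure (Torus 2)).restrict s) := by
    intro k
    apply Integrable.restrict
    apply Continuous.integrable_of_hasCompactSupport
    · exact (continuous_chi n).comp (continuous_A2.iterate k)
    · exact HasCompactSupport.of_compactSpace _
  have havg : ∀ N : ℕ, 0 < N → ∫ z in s, ((N : ℝ)⁻¹ • ∑ k ∈ Finset.range N, chi n (A2^[k] z))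
      = ∫ z in s, chi n z := by
    intro N hN
    rw [integral_smul, integral_finsetSum _ fun k _ => hint k]
    simp only [hk, Finset.sum_const, Finset.card_range]
    rw [nsmul_eq_mul, Complex.real_smul, ← mul_assoc]
    have : (((N : ℝ)⁻¹ : ℝ) : ℂ) * (N : ℂ) = 1 := by
      have h0 : (N : ℂ) ≠ 0 := by exact_mod_cast hN.ne'
      push_cast
      exact inv_mul_cancel₀ h0
    rw [this, one_mul]
  have hlim : Tendsto (fun N : ℕ => ∫ z in s, ((N : ℝ)⁻¹ • ∑ k ∈ Finset.range N,
      chi n (A2^[k] z))) atTop (𝓝 (∫ z in s, (0 : ℂ))) := by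
    apply tendsto_integral_of_dominated_convergence (fun _ => (1 : ℝ))
    · intro N
      apply Continuous.aestronglyMeasurable
      have h1 : Continuous fun z => ∑ k ∈ Finset.range N, chi n (A2^[k] z) :=
        continuous_finsetSum _ fun k _ => (continuous_chi n).comp (continuous_A2.iterate k)
      exact h1.const_smul ((N : ℝ)⁻¹)
    · exact (integrable_const _).restrict
    · intro N
      refine Eventually.of_forall fun z => ?_
      rw [norm_smul]
      rcases Nat.eq_zero_or_pos N with h0 | h0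
      · rw [h0]; simp
      · have h1 : ‖∑ k ∈ Finset.range N, chi n (A2^[k] z)‖ ≤ N := by
          refine (norm_sum_le _ _).trans ?_
          simp [norm_chi]
        rw [Real.norm_eq_abs, abs_of_nonneg (by positivity)]
        have h2 : (0 : ℝ) < N := by exact_mod_cast h0
        rw [inv_mul_le_iff₀ h2, mul_one]
        exact h1
    · exact ae_restrict_of_ae (slln_A2 hn)
  have h1 : Tendsto (fun N : ℕ => ∫ z in s, ((N : ℝ)⁻¹ • ∑ k ∈ Finset.range N,
      chi n (A2^[k] z))) atTop (𝓝 (∫ z in s, chi n z)) := by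
    apply tendsto_const_nhds.congr'
    filter_upwards [eventually_gt_atTop 0] with N hN
    exact (havg N hN).symm
  have h2 := tendsto_nhds_unique h1 hlim
  rw [h2]
  simp

/-- Integration against a finite measure as a continuous linear functional. -/
noncomputable def intC (ν : Measure (Torus 2)) [IsFiniteMeasure ν] : C(Torus 2, ℂ) →L[ℂ] ℂ :=
  LinearMap.mkContinuous
    { toFun := fun g => ∫ z, g z ∂ν
      map_add' := fun g h => by
        have hi : ∀ g : C(Torus 2, ℂ), Integrable (fun z => g z) ν := fun g =>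
          g.continuous.integrable_of_hasCompactSupport (HasCompactSupport.of_compactSpace _)
        exact integral_add (hi g) (hi h)
      map_smul' := fun c g => by
        simp only [ContinuousMap.coe_smul, Pi.smul_apply, RingHom.id_apply]
        exact integral_smul c _ } (ν.real Set.univ) fun g => by
    show ‖∫ z, g z ∂ν‖ ≤ ν.real Set.univ * ‖g‖
    have := norm_integral_le_of_norm_le_const (μ := ν) (f := fun z => g z) (C := ‖g‖)
      (Eventually.of_forall fun z => g.norm_coe_le_norm z)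
    rwa [mul_comm] at this

lemma intC_apply (ν : Measure (Torus 2)) [IsFiniteMeasure ν] (g : C(Torus 2, ℂ)) :
    intC ν g = ∫ z, g z ∂ν := rfl

lemma setIntegral_eq {s : Set (Torus 2)} (hs : MeasurableSet s) (hinv : A2 ⁻¹' s = s)
    (g : C(Torus 2, ℂ)) :
    ∫ z in s, g z = ((volume.real s : ℝ) : ℂ) * ∫ z, g z := by
  set T : C(Torus 2, ℂ) →L[ℂ] ℂ := intC (volume.restrict s)
    - ((volume.real s : ℝ) : ℂ) • intC volume with hT
  have hker : (Submodule.span ℂ (Set.range (UnitAddTorus.mFourier (d := Fin 2)))).topologicalClosure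
      ≤ LinearMap.ker (T : C(Torus 2, ℂ) →ₗ[ℂ] ℂ) := by
    apply Submodule.topologicalClosure_minimal
    · rw [Submodule.span_le]
      rintro _ ⟨n, rfl⟩
      show T (UnitAddTorus.mFourier n) = 0
      have e1 : T (UnitAddTorus.mFourier n) = (∫ z in s, chi n z)
          - ((volume.real s : ℝ) : ℂ) * ∫ z, chi n z := by
        simp only [chi_eq]
        rfl
      rw [e1]
      by_cases hn : n = 0
      · have h1 : ∀ z, chi n z = 1 := fun z => by
          rw [chi_eq, hn, UnitAddTorus.mFourier_zero]; rfl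
        simp only [h1]
        simp
      · rw [setIntegral_chi_eq_zero hs hinv hn]
        have h2 := setIntegral_chi_eq_zero (s := Set.univ) MeasurableSet.univ rfl hn
        rw [setIntegral_univ] at h2
        rw [h2]
        simp
    · exact ContinuousLinearMap.isClosed_ker T
  rw [UnitAddTorus.span_mFourier_closure_eq_top] at hker
  have h1 : T g = 0 := hker (Submodule.mem_top (x := g))
  have h2 : T g = (∫ z in s, g z) - ((volume.real s : ℝ) : ℂ) * ∫ z, g z := rfl
  rw [h2] at h1
  exact sub_eq_zero.mp h1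

lemma ergodic_A2 : Ergodic A2 (volume : Measure (Torus 2)) := by
  refine ⟨measurePreserving_A2, ⟨fun s hs hinv => ?_⟩⟩
  have h1 : (volume : Measure (Torus 2)).restrict s = volume s • (volume : Measure (Torus 2)) := by
    have : IsFiniteMeasure (volume s • (volume : Measure (Torus 2))) :=
      Measure.smul_finite _ (measure_ne_top _ _)
    apply ext_of_forall_integral_eq_of_IsFiniteMeasure
    intro f
    have h2 := setIntegral_eq hs hinv ⟨fun z => ((f z : ℝ) : ℂ),
      Complex.continuous_ofReal.comp f.continuous⟩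
    simp only [ContinuousMap.coe_mk, integral_complex_ofReal] at h2
    rw [integral_smul_measure]
    have h3 : ∫ z in s, f z = volume.real s * ∫ z, f z := by exact_mod_cast h2
    rw [h3]
    rfl
  have h4 : (volume : Measure (Torus 2)).restrict s sᶜ = 0 := by
    rw [Measure.restrict_apply hs.compl]
    simp
  rw [h1] at h4
  have h5 : volume s * volume sᶜ = 0 := h4
  rw [eventuallyConst_set']
  rcases mul_eq_zero.mp h5 with h | h
  · left
    exact ae_eq_empty.mpr h
  · right
    exact ae_eq_univ.mpr h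

/-! ### Birkhoff averages of the logarithm of the multiplier -/

/-- The logarithm of the fibre multiplier along the invariant torus. -/
noncomputable def la (z : Torus 2) : ℝ :=
  -(2 / 5) + 9 / 40 * ((1 + cC (z 0)) * (1 + cC (z 1)))

lemma la_eq (z : Torus 2) : la z = -(7 / 40) + 9 / 40 * ((chi ![1, 0] z).re + (chi ![0, 1] z).re
    + 1 / 2 * (chi ![1, 1] z).re + 1 / 2 * (chi ![1, -1] z).re) := by
  obtain ⟨x, hx⟩ := QuotientAddGroup.mk_surjective (z 0)
  obtain ⟨y, hy⟩ := QuotientAddGroup.mk_surjective (z 1)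
  have hx' : z 0 = (x : AddCircle (1 : ℝ)) := hx.symm
  have hy' : z 1 = (y : AddCircle (1 : ℝ)) := hy.symm
  have e1 : (chi ![1, 0] z).re = Real.cos (2 * Real.pi * x) := by
    unfold chi
    rw [pair_apply, hx', hy']
    simp only [Matrix.cons_val_zero, Matrix.cons_val_one, one_smul, zero_smul, add_zero]
    exact cC_coe x
  have e2 : (chi ![0, 1] z).re = Real.cos (2 * Real.pi * y) := by
    unfold chi
    rw [pair_apply, hx', hy']
    simp only [Matrix.cons_val_zero, Matrix.cons_val_one, one_smul, zero_smul, zero_add]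
    exact cC_coe y
  have e3 : (chi ![1, 1] z).re = Real.cos (2 * Real.pi * x + 2 * Real.pi * y) := by
    unfold chi
    rw [pair_apply, hx', hy']
    simp only [Matrix.cons_val_zero, Matrix.cons_val_one, one_smul, ← AddCircle.coe_add]
    rw [← mul_add]
    exact cC_coe (x + y)
  have e4 : (chi ![1, -1] z).re = Real.cos (2 * Real.pi * x - 2 * Real.pi * y) := by
    unfold chi
    rw [pair_apply, hx', hy']
    simp only [Matrix.cons_val_zero, Matrix.cons_val_one, one_smul, neg_smul, ← sub_eq_add_neg,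
      ← AddCircle.coe_sub]
    rw [← mul_sub]
    exact cC_coe (x - y)
  rw [e1, e2, e3, e4, Real.cos_add, Real.cos_sub]
  unfold la
  rw [hx', hy', cC_coe, cC_coe]
  ring

lemma tendsto_avg_la {g : Torus 2 → Torus 2} {z : Torus 2}
    (h : ∀ n ∈ ({![1, 0], ![0, 1], ![1, 1], ![1, -1]} : Set (Fin 2 → ℤ)),
      Tendsto (fun N : ℕ => (N : ℝ)⁻¹ • ∑ k ∈ Finset.range N, chi n (g^[k] z)) atTop (𝓝 0)) :
    Tendsto (fun N : ℕ => (∑ k ∈ Finset.range N, la (g^[k] z)) / N) atTop (𝓝 (-(7 / 40))) := by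
  have hre : ∀ n ∈ ({![1, 0], ![0, 1], ![1, 1], ![1, -1]} : Set (Fin 2 → ℤ)),
      Tendsto (fun N : ℕ => (∑ k ∈ Finset.range N, (chi n (g^[k] z)).re) / N) atTop (𝓝 0) := by
    intro n hn
    have h1 := (Complex.continuous_re.tendsto 0).comp (h n hn)
    rw [Complex.zero_re] at h1
    refine h1.congr fun N => ?_
    simp only [Function.comp_apply]
    rw [Complex.real_smul, Complex.re_ofReal_mul, Complex.re_sum, div_eq_inv_mul]
  have h10 := hre ![1, 0] (by simp)
  have h01 := hre ![0, 1] (by simp)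
  have h11 := hre ![1, 1] (by simp)
  have h1m := hre ![1, -1] (by simp)
  have hsum := (((h10.add h01).add (h11.const_mul (1 / 2))).add (h1m.const_mul (1 / 2))).const_mul
    (9 / 40) |>.const_add (-(7 / 40) : ℝ)
  have hz : (-(7 / 40) + 9 / 40 * (0 + 0 + 1 / 2 * 0 + 1 / 2 * 0) : ℝ) = -(7 / 40) := by norm_num
  rw [hz] at hsum
  refine hsum.congr' ?_
  filter_upwards [eventually_gt_atTop 0] with N hN
  have hN' : (N : ℝ) ≠ 0 := by exact_mod_cast hN.ne'
  simp only [la_eq, Finset.sum_add_distrib, ← Finset.mul_sum, Finset.sum_const, Finset.card_range,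
    nsmul_eq_mul]
  field_simp

lemma four_ne_zero' : ∀ n ∈ ({![1, 0], ![0, 1], ![1, 1], ![1, -1]} : Set (Fin 2 → ℤ)), n ≠ 0 := by
  intro n hn h0
  subst h0
  simp only [Set.mem_insert_iff, Set.mem_singleton_iff] at hn
  rcases hn with h | h | h | h
  · exact absurd (congrFun h 0) (by simp)
  · exact absurd (congrFun h 1) (by simp)
  · exact absurd (congrFun h 0) (by simp)
  · exact absurd (congrFun h 0) (by simp)

lemma ae_avg_A2 : ∀ᵐ z : Torus 2, Tendsto
    (fun N : ℕ => (∑ k ∈ Finset.range N, la (A2^[k] z)) / N) atTop (𝓝 (-(7 / 40))) := by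
  have h : ∀ᵐ z : Torus 2, ∀ n ∈ ({![1, 0], ![0, 1], ![1, 1], ![1, -1]} : Set (Fin 2 → ℤ)),
      Tendsto (fun N : ℕ => (N : ℝ)⁻¹ • ∑ k ∈ Finset.range N, chi n (A2^[k] z)) atTop (𝓝 0) := by
    rw [ae_ball_iff (Set.to_countable _)]
    exact fun n hn => slln_A2 (four_ne_zero' n hn)
  filter_upwards [h] with z hz
  exact tendsto_avg_la hz

lemma ae_avg_B2 : ∀ᵐ z : Torus 2, Tendsto
    (fun N : ℕ => (∑ k ∈ Finset.range N, la (B2^[k] z)) / N) atTop (𝓝 (-(7 / 40))) := by
  have h : ∀ᵐ z : Torus 2, ∀ n ∈ ({![1, 0], ![0, 1], ![1, 1], ![1, -1]} : Set (Fin 2 → ℤ)),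
      Tendsto (fun N : ℕ => (N : ℝ)⁻¹ • ∑ k ∈ Finset.range N, chi n (B2^[k] z)) atTop (𝓝 0) := by
    rw [ae_ball_iff (Set.to_countable _)]
    exact fun n hn => slln_B2 (four_ne_zero' n hn)
  filter_upwards [h] with z hz
  exact tendsto_avg_la hz

end Pool.Agent.H.MP_40f8bf_an
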