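import Mathlib

set_option autoImplicit false

open Real

namespace Pool.Agent.H.MP_40f8bf_an

/-! ### Real-variable facts about the fibre maps -/

/-- The fibre displacement for the parameter `a`. -/
noncomputable def hR (a y : ℝ) : ℝ :=
  (a - 49 / 50) * (sin (2 * π * y) * cos (2 * π * y) * (1 + 2 * cos (2 * π * y) ^ 2)) / (6 * π)
    - sin (2 * π * y) / (100 * π)

/-- The slope of the fibre map in terms of `c = cos (2 π y)`. -/
noncomputable def slR (a c : ℝ) : ℝ :=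
  1 + (a - 49 / 50) * ((8 * c ^ 4 - 4 * c ^ 2 - 1) / 3) - c / 50

lemma polyP_bounds {c : ℝ} (h : |c| ≤ 1) :
    -(1 / 2) ≤ (8 * c ^ 4 - 4 * c ^ 2 - 1) / 3 ∧ (8 * c ^ 4 - 4 * c ^ 2 - 1) / 3 ≤ 1 := by
  have h2 : c ^ 2 ≤ 1 := by
    have := sq_abs c
    nlinarith [abs_nonneg c]
  have h3 : 0 ≤ c ^ 2 := sq_nonneg c
  constructor
  · nlinarith [sq_nonneg (4 * c ^ 2 - 1)]
  · nlinarith

lemma slR_lower {a c : ℝ} (ha : 0.66 ≤ a) (ha' : a ≤ 1.65) (h : |c| ≤ 1) : 0.64 ≤ slR a c := by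
  obtain ⟨h1, h2⟩ := polyP_bounds h
  obtain ⟨h3, h4⟩ := abs_le.mp h
  unfold slR
  rcases le_total 0 (a - 49 / 50) with h0 | h0
  · nlinarith
  · nlinarith

lemma slR_upper {a c : ℝ} (ha : 0.66 ≤ a) (ha' : a ≤ 1.65) (h : |c| ≤ 1) : slR a c ≤ 1.7 := by
  obtain ⟨h1, h2⟩ := polyP_bounds h
  obtain ⟨h3, h4⟩ := abs_le.mp h
  unfold slR
  rcases le_total 0 (a - 49 / 50) with h0 | h0
  · nlinarith
  · nlinarith

lemma hasDerivAt_hR (a y : ℝ) :
    HasDerivAt (fun y => y + hR a y) (slR a (cos (2 * π * y))) y := by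
  have h0 : HasDerivAt (fun y : ℝ => 2 * π * y) (2 * π) y := by
    simpa using (hasDerivAt_id y).const_mul (2 * π)
  have hs := h0.sin
  have hc := h0.cos
  have h1 := (((hs.mul hc).mul (((hc.pow 2).const_mul 2).const_add 1)).const_mul
    (a - 49 / 50)).div_const (6 * π)
  have h2 := (hasDerivAt_id y).add (h1.sub (hs.div_const (100 * π)))
  refine h2.congr_deriv ?_
  unfold slR
  have hpi : π ≠ 0 := pi_ne_zero
  have hsc : sin (2 * π * y) ^ 2 = 1 - cos (2 * π * y) ^ 2 := by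
    have := sin_sq_add_cos_sq (2 * π * y)
    linarith
  simp only [Pi.mul_apply, Pi.pow_apply]
  field_simp
  ring_nf
  ring_nf at hsc
  rw [show sin (π * y * 2) ^ 2 = 1 - cos (π * y * 2) ^ 2 from by linarith]
  ring

lemma slR_le_near (a y : ℝ) (ha : 0.66 ≤ a) (_ha' : a ≤ 1.65) :
    slR a (cos (2 * π * y)) ≤ a + 120 * y ^ 2 := by
  set c := cos (2 * π * y) with hc
  have hc1 : |c| ≤ 1 := abs_cos_le_one _
  obtain ⟨h3, h4⟩ := abs_le.mp hc1
  have h5 : 1 - (2 * π * y) ^ 2 / 2 ≤ c := one_sub_sq_div_two_le_cos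
  have hpi : π ^ 2 ≤ 10 := by nlinarith [pi_lt_d2, pi_gt_three]
  have h6 : 1 - c ≤ 20 * y ^ 2 := by nlinarith [sq_nonneg y]
  have h7 : 1 - c ^ 2 ≤ 40 * y ^ 2 := by nlinarith
  have e : slR a c - a = (a - 49 / 50) * (-(4 / 3) * (1 - c ^ 2) * (2 * c ^ 2 + 1))
      + (1 - c) / 50 := by
    unfold slR; ring
  have h8 : 0 ≤ 1 - c ^ 2 := by nlinarith [sq_abs c, abs_nonneg c]
  have h9 : 0 ≤ (1 - c ^ 2) * (2 * c ^ 2 + 1) := by positivity
  have h10 : (1 - c ^ 2) * (2 * c ^ 2 + 1) ≤ 3 * (1 - c ^ 2) := by nlinarith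
  have h11 : (a - 49 / 50) * (-(4 / 3) * (1 - c ^ 2) * (2 * c ^ 2 + 1)) ≤ 52 * y ^ 2 := by
    nlinarith
  nlinarith

lemma hR_zero (a : ℝ) : hR a 0 = 0 := by simp [hR]

lemma hR_neg (a y : ℝ) : hR a (-y) = -hR a y := by
  unfold hR
  rw [show 2 * π * -y = -(2 * π * y) by ring, sin_neg, cos_neg]
  ring

lemma hR_add_int (a y : ℝ) (k : ℤ) : hR a (y + k) = hR a y := by
  unfold hR
  rw [show 2 * π * (y + k) = 2 * π * y + k * (2 * π) by ring, sin_add_int_mul_two_pi,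
    cos_add_int_mul_two_pi]

lemma hR_quarter (a : ℝ) : hR a (1 / 4) = -(1 / (100 * π)) := by
  unfold hR
  rw [show 2 * π * (1 / 4) = π / 2 by ring, sin_pi_div_two, cos_pi_div_two]
  ring

lemma strictMono_fib {a : ℝ} (ha : 0.66 ≤ a) (ha' : a ≤ 1.65) :
    StrictMono (fun y => y + hR a y) := by
  apply strictMono_of_deriv_pos
  intro y
  rw [(hasDerivAt_hR a y).deriv]
  have := slR_lower ha ha' (abs_cos_le_one (2 * π * y))
  linarith

lemma hR_abs_le {a y : ℝ} (ha : 0.66 ≤ a) (ha' : a ≤ 1.65) :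
    |y + hR a y| ≤ (a + 120 * y ^ 2) * |y| := by
  have key : ∀ t : ℝ, 0 ≤ t → |t + hR a t| ≤ (a + 120 * t ^ 2) * |t| := by
    intro t ht
    have hmono := (strictMono_fib ha ha').monotone ht
    simp only [hR_zero, add_zero] at hmono
    rw [abs_of_nonneg hmono, abs_of_nonneg ht]
    have hcont : ContinuousOn (fun y => y + hR a y) (Set.Icc 0 t) := fun s _ =>
      (hasDerivAt_hR a s).continuousAt.continuousWithinAt
    have h1 := Convex.image_sub_le_mul_sub_of_deriv_le (convex_Icc 0 t) hcont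
      (fun s hs => (hasDerivAt_hR a s).differentiableAt.differentiableWithinAt)
      (C := a + 120 * t ^ 2) (fun s hs => by
        rw [interior_Icc] at hs
        rw [(hasDerivAt_hR a s).deriv]
        refine (slR_le_near a s ha ha').trans ?_
        nlinarith [hs.1, hs.2]) 0 ⟨le_rfl, ht⟩ t ⟨ht, le_rfl⟩ ht
    simpa [hR_zero] using h1
  rcases le_total 0 y with h | h
  · exact key y h
  · have := key (-y) (by linarith)
    rw [hR_neg, abs_neg] at this
    rw [show -y + -hR a y = -(y + hR a y) by ring, abs_neg] at this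
    simpa using this

lemma surj_fib (a : ℝ) :
    Function.Surjective (fun y => y + hR a y) := by
  have hcont : Continuous (fun y => y + hR a y) :=
    continuous_iff_continuousAt.mpr fun s => (hasDerivAt_hR a s).continuousAt
  intro w
  have hint : ∀ k : ℤ, (fun y => y + hR a y) (k : ℝ) = k := by
    intro k
    have := hR_add_int a 0 k
    simp only [zero_add, hR_zero] at this
    simp [this]
  have h1 := hint ⌊w⌋
  have h2 := hint (⌊w⌋ + 1)
  have hmem : w ∈ Set.Icc ((fun y => y + hR a y) ((⌊w⌋ : ℤ) : ℝ))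
      ((fun y => y + hR a y) ((⌊w⌋ + 1 : ℤ) : ℝ)) := by
    rw [h1, h2]
    refine ⟨Int.floor_le w, ?_⟩
    push_cast
    exact (Int.lt_floor_add_one w).le
  have hle : ((⌊w⌋ : ℤ) : ℝ) ≤ ((⌊w⌋ + 1 : ℤ) : ℝ) := by
    push_cast; linarith
  obtain ⟨y, _, hy⟩ := intermediate_value_Icc hle hcont.continuousOn hmem
  exact ⟨y, hy⟩

/-! ### The multiplier -/

/-- The fibre multiplier as a function of the two cosines. -/
noncomputable def aR (c₀ c₁ : ℝ) : ℝ := exp (-(2 / 5) + 9 / 40 * ((1 + c₀) * (1 + c₁)))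

lemma exp_half_lt : exp (1 / 2) < 1.65 := by
  have h := exp_one_lt_d9
  have h2 : exp (1 / 2) * exp (1 / 2) = exp 1 := by rw [← exp_add]; norm_num
  have h3 := exp_pos (1 / 2)
  by_contra hcon
  push Not at hcon
  nlinarith

lemma exp_half_gt : 1.64 < exp (1 / 2) := by
  have h := exp_one_gt_d9
  have h2 : exp (1 / 2) * exp (1 / 2) = exp 1 := by rw [← exp_add]; norm_num
  have h3 := exp_pos (1 / 2)
  by_contra hcon
  push Not at hcon
  nlinarith

lemma exp_neg_gt : 0.66 < exp (-(2 / 5)) := by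
  have h := exp_one_lt_d9
  have h0 : exp (-(2 / 5)) ^ 5 = (exp 1 ^ 2)⁻¹ := by
    rw [← exp_nat_mul, ← exp_nat_mul, ← exp_neg]
    norm_num
  have h3 := exp_pos (-(2 / 5))
  have h4 : 0.1353 < (exp 1 ^ 2)⁻¹ := by
    have h5 : exp 1 ^ 2 < 7.3891 := by nlinarith [exp_pos 1]
    rw [lt_inv_comm₀ (by norm_num) (by positivity)]
    refine h5.trans_le ?_
    norm_num
  by_contra hcon
  push Not at hcon
  have h6 : exp (-(2 / 5)) ^ 5 ≤ 0.66 ^ 5 := pow_le_pow_left₀ h3.le hcon 5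
  rw [h0] at h6
  norm_num at h6 h4
  linarith

lemma aR_bounds {c₀ c₁ : ℝ} (h₀ : |c₀| ≤ 1) (h₁ : |c₁| ≤ 1) :
    0.66 ≤ aR c₀ c₁ ∧ aR c₀ c₁ ≤ 1.65 := by
  obtain ⟨h1, h2⟩ := abs_le.mp h₀
  obtain ⟨h3, h4⟩ := abs_le.mp h₁
  constructor
  · refine exp_neg_gt.le.trans (exp_le_exp.mpr ?_)
    nlinarith [mul_nonneg (show 0 ≤ 1 + c₀ by linarith) (show 0 ≤ 1 + c₁ by linarith)]
  · refine (exp_le_exp.mpr ?_).trans exp_half_lt.le
    nlinarith

lemma aR_one : aR 1 1 = exp (1 / 2) := by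
  unfold aR; norm_num

end Pool.Agent.H.MP_40f8bf_an
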