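import Pool.Agent.H.MP_40f8bf_an.SRB

set_option autoImplicit false

open MeasureTheory Filter Topology ProbabilityTheory
open scoped goldenRatio ENNReal

namespace Pool.Agent.H.MP_40f8bf_an

/-! ### The parametrisation of the unstable manifolds -/

/-- The immersion parametrising the unstable manifold of the point with coordinates `a, b`. -/
noncomputable def jF (a b : ℝ) (s : Fin 1 → ℝ) : Vec 3 := WithLp.toLp 2 ![a + φ * s 0, b + s 0, 0]

/-- Its derivative. -/
noncomputable def jD : (Fin 1 → ℝ) →L[ℝ] Vec 3 :=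
  (ContinuousLinearMap.proj 0 : (Fin 1 → ℝ) →L[ℝ] ℝ).smulRight eu

lemma jF_eq (a b : ℝ) (s : Fin 1 → ℝ) : jF a b s = WithLp.toLp 2 ![a, b, 0] + jD s := by
  ext i
  fin_cases i
  · show a + φ * s 0 = a + s 0 * φ
    ring
  · show b + s 0 = b + s 0 * 1
    ring
  · show (0 : ℝ) = 0 + s 0 * 0
    ring

lemma contDiff_jF (a b : ℝ) : ContDiff ℝ 1 (jF a b) := by
  have h : jF a b = fun s => WithLp.toLp 2 ![a, b, 0] + jD s := funext (jF_eq a b)
  rw [h]
  exact contDiff_const.add jD.contDiff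

lemma fderiv_jF (a b : ℝ) (s : Fin 1 → ℝ) : fderiv ℝ (jF a b) s = jD := by
  have h : jF a b = fun s => WithLp.toLp 2 ![a, b, 0] + jD s := funext (jF_eq a b)
  rw [h]
  exact (jD.hasFDerivAt.const_add _).fderiv

lemma jD_injective : Function.Injective jD := by
  rw [injective_iff_map_eq_zero]
  intro s hs
  have h1 : (jD s) 1 = s 0 * 1 := rfl
  rw [hs] at h1
  have h2 : (0 : ℝ) = s 0 * 1 := h1
  funext i
  have hi : i = 0 := Subsingleton.elim _ _
  rw [hi]
  show s 0 = 0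
  linarith

lemma proj_jF (z : Torus 2) (s : Fin 1 → ℝ) :
    proj (jF (rp (z 0)) (rp (z 1)) s) = emb (z + ue (s 0)) := by
  funext i
  fin_cases i
  · show ((rp (z 0) + φ * s 0 : ℝ) : AddCircle (1 : ℝ)) = z 0 + ((φ * s 0 : ℝ) : AddCircle (1 : ℝ))
    rw [AddCircle.coe_add, coe_rp]
  · show ((rp (z 1) + s 0 : ℝ) : AddCircle (1 : ℝ)) = z 1 + ((s 0 : ℝ) : AddCircle (1 : ℝ))
    rw [AddCircle.coe_add, coe_rp]
  · rfl

lemma ue_injective : Function.Injective ue := by
  intro s t h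
  have h0 : ((φ * s : ℝ) : AddCircle (1 : ℝ)) = ((φ * t : ℝ) : AddCircle (1 : ℝ)) := congrFun h 0
  have h1 : (s : AddCircle (1 : ℝ)) = (t : AddCircle (1 : ℝ)) := congrFun h 1
  rw [← sub_eq_zero, ← AddCircle.coe_sub, AddCircle.coe_eq_zero_iff] at h0 h1
  obtain ⟨k, hk⟩ := h0
  obtain ⟨l, hl⟩ := h1
  simp only [zsmul_eq_mul, mul_one] at hk hl
  by_contra hne
  have hl0 : l ≠ 0 := by
    intro h
    rw [h] at hl
    simp only [Int.cast_zero] at hl
    exact hne (by linarith)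
  have h2 : φ * (l : ℝ) = (k : ℝ) := by
    rw [hl, hk]
    ring
  have h3 := Real.goldenRatio_irrational.mul_intCast hl0
  rw [h2] at h3
  exact (Int.not_irrational k) h3

lemma proj_jF_injective (z : Torus 2) :
    Function.Injective fun s : Fin 1 → ℝ => proj (jF (rp (z 0)) (rp (z 1)) s) := by
  intro s t h
  simp only [proj_jF] at h
  have h1 := add_left_cancel (emb_injective h)
  have h2 := ue_injective h1
  funext i
  have hi : i = 0 := Subsingleton.elim _ _
  rw [hi]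
  exact h2

lemma range_proj_jF (z : Torus 2) :
    (Set.range fun s : Fin 1 → ℝ => proj (jF (rp (z 0)) (rp (z 1)) s))
      = Set.range fun t : ℝ => emb (z + ue t) := by
  apply Set.Subset.antisymm
  · rintro _ ⟨s, rfl⟩
    exact ⟨s 0, (proj_jF z s).symm⟩
  · rintro _ ⟨t, rfl⟩
    exact ⟨fun _ => t, proj_jF z fun _ => t⟩

lemma emb_of_same_label {z : Torus 2} {q : Torus 3} (h : tauF q = tauF (emb z)) :
    ∃ t, q = emb (z + ue t) := by
  have hq : q 2 = 0 := by
    by_contra hq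
    rw [tauF_of_ne hq] at h
    have := tauF_lt_five (p := emb z) rfl
    linarith
  refine ⟨rp (q 1) - rp (z 1), ?_⟩
  rw [tauF_of_zero hq, tauF_emb] at h
  funext i
  fin_cases i
  · show q 0 = z 0 + ((φ * (rp (q 1) - rp (z 1)) : ℝ) : AddCircle (1 : ℝ))
    have e : φ * (rp (q 1) - rp (z 1)) = rp (q 0) - rp (z 0) := by linarith
    rw [e, AddCircle.coe_sub, coe_rp, coe_rp]
    abel
  · show q 1 = z 1 + ((rp (q 1) - rp (z 1) : ℝ) : AddCircle (1 : ℝ))
    rw [AddCircle.coe_sub, coe_rp, coe_rp]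
    abel
  · exact hq

/-! ### Generic points -/

instance nullSingleton_circle :
    NullSingletonClass (volume : Measure (AddCircle (1 : ℝ))) := by
  refine ⟨fun x => ?_⟩
  have h := AddCircle.volume_closedBall (T := (1 : ℝ)) (x := x) 0
  rw [Metric.closedBall_zero] at h
  rw [h]
  simp

lemma ae_ne_zero (i : Fin 2) : ∀ᵐ z : Torus 2, z i ≠ 0 :=
  Measure.ae_eval_ne (fun _ : Fin 2 => (volume : Measure (AddCircle (1 : ℝ)))) i 0

lemma rp_pos {x : AddCircle (1 : ℝ)} (hx : x ≠ 0) : 0 < rp x := by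
  rcases (rp_mem x).1.lt_or_eq with h | h
  · exact h
  · exfalso
    apply hx
    rw [← coe_rp x, ← h]
    simp

lemma label_nhds {z : Torus 2} (h0 : z 0 ≠ 0) (h1 : z 1 ≠ 0) :
    {s : ℝ | rp (z 1) + s ∈ Iseg (tauF (emb z))} ∈ 𝓝 (0 : ℝ) := by
  have e : {s : ℝ | rp (z 1) + s ∈ Iseg (tauF (emb z))}
      = {s : ℝ | rp (z 1) + s ∈ Set.Ico (0 : ℝ) 1 ∧ rp (z 0) + φ * s ∈ Set.Ico (0 : ℝ) 1} := by
    ext s
    show (_ ∧ _) ↔ (_ ∧ _)
    rw [tauF_emb, show rp (z 0) - φ * rp (z 1) + φ * (rp (z 1) + s) = rp (z 0) + φ * s by ring]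
  rw [e]
  have c1 : Continuous fun s : ℝ => rp (z 1) + s := by fun_prop
  have c0 : Continuous fun s : ℝ => rp (z 0) + φ * s := by fun_prop
  have n1 : Set.Ico (0 : ℝ) 1 ∈ 𝓝 (rp (z 1) + 0) := by
    rw [add_zero]
    exact Ico_mem_nhds (rp_pos h1) (rp_mem _).2
  have n0 : Set.Ico (0 : ℝ) 1 ∈ 𝓝 (rp (z 0) + φ * 0) := by
    rw [mul_zero, add_zero]
    exact Ico_mem_nhds (rp_pos h0) (rp_mem _).2
  exact Filter.inter_mem (c1.continuousAt.preimage_mem_nhds n1)
    (c0.continuousAt.preimage_mem_nhds n0)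

lemma volume_Iseg_ne_zero {z : Torus 2} (h0 : z 0 ≠ 0) (h1 : z 1 ≠ 0) :
    volume (Iseg (tauF (emb z))) ≠ 0 := by
  have h2 : Iseg (tauF (emb z)) ∈ 𝓝 (rp (z 1)) := by
    have h3 := label_nhds h0 h1
    have c : ContinuousAt (fun t : ℝ => t - rp (z 1)) (rp (z 1)) := by fun_prop
    have h4 : {s : ℝ | rp (z 1) + s ∈ Iseg (tauF (emb z))} ∈ 𝓝 (rp (z 1) - rp (z 1)) := by
      rwa [sub_self]
    have h5 := c.preimage_mem_nhds h4
    filter_upwards [h5] with t ht
    have h6 : rp (z 1) + (t - rp (z 1)) ∈ Iseg (tauF (emb z)) := ht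
    rwa [add_sub_cancel] at h6
  exact (Measure.measure_pos_of_mem_nhds volume h2).ne'

lemma pt_eq_proj (z : Torus 2) (t : ℝ) :
    pt (tauF (emb z)) t = proj (jF (rp (z 0)) (rp (z 1)) fun _ => t - rp (z 1)) := by
  rw [proj_jF]
  unfold pt
  congr 1
  rw [tauF_emb]
  funext i
  fin_cases i
  · show ((rp (z 0) - φ * rp (z 1) + φ * t : ℝ) : AddCircle (1 : ℝ))
      = z 0 + ((φ * (t - rp (z 1)) : ℝ) : AddCircle (1 : ℝ))
    rw [show rp (z 0) - φ * rp (z 1) + φ * t = rp (z 0) + φ * (t - rp (z 1)) by ring,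
      AddCircle.coe_add, coe_rp]
  · show (t : AddCircle (1 : ℝ)) = z 1 + ((t - rp (z 1) : ℝ) : AddCircle (1 : ℝ))
    rw [AddCircle.coe_sub, coe_rp]
    abel

lemma tauF_proj_jF {z : Torus 2} {s : ℝ} (hs : rp (z 1) + s ∈ Iseg (tauF (emb z))) :
    tauF (proj (jF (rp (z 0)) (rp (z 1)) fun _ => s)) = tauF (emb z) := by
  have h := tauF_pt hs
  rw [pt_eq_proj, add_sub_cancel_left] at h
  exact h

lemma measurable_proj_jF (a b : ℝ) : Measurable fun s : Fin 1 → ℝ => proj (jF a b s) := by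
  apply measurable_pi_lambda
  intro i
  apply AddCircle.measurable_mk'.comp
  have h1 : Continuous fun s : Fin 1 → ℝ => (jF a b s) i := by
    have h2 := (contDiff_jF a b).continuous
    exact (EuclideanSpace.proj (𝕜 := ℝ) i).continuous.comp h2
  exact h1.measurable

lemma kap_absolutelyContinuous {z : Torus 2} (h0 : z 0 ≠ 0) (h1 : z 1 ≠ 0) :
    kap (tauF (emb z)) ≪ Measure.map
      (fun s : Fin 1 → ℝ => proj (jF (rp (z 0)) (rp (z 1)) s)) volume := by
  rw [kap_of_ne (volume_Iseg_ne_zero h0 h1)]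
  have e : Measure.map (pt (tauF (emb z))) volume = Measure.map
      (fun s : Fin 1 → ℝ => proj (jF (rp (z 0)) (rp (z 1)) s)) volume := by
    have h2 : MeasurePreserving (fun t : ℝ => (fun _ : Fin 1 => t - rp (z 1))) volume volume :=
      ((volume_preserving_funUnique (Fin 1) ℝ).symm).comp
        (measurePreserving_sub_right volume (rp (z 1)))
    rw [← h2.map_eq, Measure.map_map (measurable_proj_jF _ _) h2.measurable]
    congr 1
    funext t
    exact pt_eq_proj z t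
  rw [← e]
  apply Measure.AbsolutelyContinuous.smul_left
  exact (Measure.absolutelyContinuous_of_le Measure.restrict_le_self).map (measurable_pt _)

lemma kap_concentrated {z : Torus 2} (h0 : z 0 ≠ 0) (h1 : z 1 ≠ 0) :
    kap (tauF (emb z)) {q | tauF q ≠ tauF (emb z)} = 0 := by
  have hm : MeasurableSet {q | tauF q ≠ tauF (emb z)} :=
    (measurable_tauF (measurableSet_singleton (tauF (emb z)))).compl
  rw [kap_apply_of_ne (volume_Iseg_ne_zero h0 h1) hm]
  have e : pt (tauF (emb z)) ⁻¹' {q | tauF q ≠ tauF (emb z)} ∩ Iseg (tauF (emb z)) = ∅ := by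
    ext t
    simp only [Set.mem_inter_iff, Set.mem_preimage, Set.mem_ofPred_eq, Set.mem_empty_iff_false,
      iff_false, not_and]
    intro h ht
    exact h (tauF_pt ht)
  rw [e, measure_empty, mul_zero]

theorem isSRB_muT : IsSRB fT muT where
  isProbabilityMeasure := isProb_muT
  ergodic := ergodic_muT
  exponent := ⟨Real.log φ, Real.log_pos Real.one_lt_goldenRatio,
    ae_muT (Eventually.of_forall fun z => ⟨eu, eu_ne_zero, hasExponent_eu z⟩)⟩
  absolutelyContinuous := by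
    refine ⟨1, tauF, kapK, one_pos, measurable_tauF, isMarkovKernel_kapK,
      fun B hB => disintegration hB, ae_muT ?_⟩
    filter_upwards [ae_avg_B2, ae_ne_zero 0, ae_ne_zero 1] with z hz h0 h1
    refine ⟨kap_concentrated h0 h1, jF (rp (z 0)) (rp (z 1)), contDiff_jF _ _, fun t => ?_,
      proj_jF_injective z, ?_, ?_, ?_, ?_, kap_absolutelyContinuous h0 h1⟩
    · rw [fderiv_jF]
      exact jD_injective
    · rw [range_proj_jF, unstableSet_eq hz]
    · rw [proj_jF]
      congr 1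
      funext i
      fin_cases i
      · show z 0 + ((φ * 0 : ℝ) : AddCircle (1 : ℝ)) = z 0
        simp
      · show z 1 + ((0 : ℝ) : AddCircle (1 : ℝ)) = z 1
        simp
    · intro q hq
      rw [unstableSet_eq hz]
      obtain ⟨t, ht⟩ := emb_of_same_label hq
      exact ⟨t, ht.symm⟩
    · have c : ContinuousAt (fun s : Fin 1 → ℝ => s 0) 0 := (continuous_apply 0).continuousAt
      have h2 := c.preimage_mem_nhds (label_nhds h0 h1)
      filter_upwards [h2] with s hs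
      have h3 := tauF_proj_jF hs
      have h4 : (fun _ : Fin 1 => s 0) = s := by
        funext i
        have hi : i = 0 := Subsingleton.elim _ _
        rw [hi]
      rw [h4] at h3
      exact h3

theorem main : ∃ (f : TorusDiffeo 3) (Λ : Set (Torus 3)) (Es Ecu : Torus 3 → Submodule ℝ (Vec 3))
    (μ : Measure (Torus 3)),
    Dissipative f ∧ IsAttractingSet f Λ ∧ IsStableCenterUnstable f Λ Es Ecu ∧
      (∀ p ∈ Λ, Module.finrank ℝ (Ecu p) = 2) ∧ IsSRB f μ ∧ μ Λᶜ = 0 ∧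
      (∃ χ₁ > 0, ∃ χ₂ < 0, ∀ᵐ p ∂μ, (∃ v ∈ Ecu p, v ≠ 0 ∧ HasExponent f p v χ₁) ∧
        ∃ w ∈ Ecu p, w ≠ 0 ∧ HasExponent f p w χ₂) ∧
      ¬ HasDominatedSubsplitting f Λ Ecu ∧ ¬ HasDominatedSubsplitting f μ.support Ecu := by
  refine ⟨fT, Lam, Es, Ecu, muT, dissipative_fT, isAttractingSet_Lam, isStableCenterUnstable Lam,
    fun p _ => finrank_Ecu p, isSRB_muT, ?_, ?_, ?_, ?_⟩
  · have h : ∀ᵐ p ∂muT, p ∈ Lam := ae_muT (Eventually.of_forall fun z => mem_Lam_of_zero rfl)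
    exact h
  · refine ⟨Real.log φ, Real.log_pos Real.one_lt_goldenRatio, -(7 / 40), by norm_num, ae_muT ?_⟩
    filter_upwards [ae_avg_A2] with z hz
    exact ⟨⟨eu, eu_mem _, eu_ne_zero, hasExponent_eu z⟩,
      ⟨ez, ez_mem _, ez_ne_zero, hasExponent_ez hz⟩⟩
  · exact not_hasDominatedSubsplitting Lam fun z => mem_Lam_of_zero rfl
  · exact not_hasDominatedSubsplitting _ emb_mem_support

end Pool.Agent.H.MP_40f8bf_an
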