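import Pool.Agent.H.MP_40f8bf_an.Ergo
import Pool.Agent.H.MP_40f8bf_an.Attr

set_option autoImplicit false

open MeasureTheory Filter Topology ProbabilityTheory
open scoped ContDiff goldenRatio

namespace Pool.Agent.H.MP_40f8bf_an

/-! ### The invariant two-torus -/

/-- The embedding of the two-torus as the invariant torus `x = 0`. -/
def emb (z : Torus 2) : Torus 3 := ![z 0, z 1, 0]

lemma continuous_emb : Continuous emb := by
  refine continuous_pi fun i => ?_
  fin_cases i
  · exact continuous_apply 0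
  · exact continuous_apply 1
  · exact continuous_const

lemma emb_injective : Function.Injective emb := by
  intro z w h
  funext i
  fin_cases i
  · exact congrFun h 0
  · exact congrFun h 1

lemma emb_measurableEmbedding : MeasurableEmbedding emb :=
  (continuous_emb.isClosedEmbedding emb_injective).measurableEmbedding

lemma exists_emb {p : Torus 3} (hp : p 2 = 0) : p = emb ![p 0, p 1] := by
  funext i
  fin_cases i
  · rfl
  · rfl
  · exact hp

lemma fFun_emb (z : Torus 2) : fFun (emb z) = emb (A2 z) := by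
  funext i
  fin_cases i
  · rfl
  · rfl
  · exact fFun_two_zero rfl

lemma fT_emb (z : Torus 2) : fT.toHomeo (emb z) = emb (A2 z) := fFun_emb z

lemma symm_emb (z : Torus 2) : fT.toHomeo.symm (emb z) = emb (B2 z) := by
  rw [Homeomorph.symm_apply_eq, fT_emb, A2_B2]

lemma iterate_emb (n : ℕ) (z : Torus 2) : fFun^[n] (emb z) = emb (A2^[n] z) := by
  induction n generalizing z with
  | zero => rfl
  | succ n ih => rw [Function.iterate_succ_apply, fFun_emb, ih, Function.iterate_succ_apply]

lemma symm_iterate_emb (n : ℕ) (z : Torus 2) :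
    fT.toHomeo.symm^[n] (emb z) = emb (B2^[n] z) := by
  induction n generalizing z with
  | zero => rfl
  | succ n ih => rw [Function.iterate_succ_apply, symm_emb, ih, Function.iterate_succ_apply]

/-- The invariant measure. -/
noncomputable def muT : Measure (Torus 3) := Measure.map emb volume

lemma measurePreserving_emb : MeasurePreserving emb volume muT :=
  ⟨continuous_emb.measurable, rfl⟩

instance isProb_muT : IsProbabilityMeasure muT :=
  Measure.isProbabilityMeasure_map continuous_emb.measurable.aemeasurable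

lemma ergodic_muT : Ergodic fT.toHomeo muT :=
  measurePreserving_emb.ergodic_of_ergodic_semiconj ergodic_A2 fT.toHomeo.continuous.measurable
    (fun z => (fT_emb z).symm)

lemma ae_muT {P : Torus 3 → Prop} (h : ∀ᵐ z : Torus 2, P (emb z)) : ∀ᵐ p ∂muT, P p :=
  (emb_measurableEmbedding.ae_map_iff).mpr h

lemma emb_mem_support (z : Torus 2) : emb z ∈ muT.support := by
  rw [Measure.mem_support_iff_forall]
  intro U hU
  have h1 : emb ⁻¹' U ∈ 𝓝 z := continuous_emb.continuousAt.preimage_mem_nhds hU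
  have h2 : 0 < (volume : Measure (Torus 2)) (emb ⁻¹' U) := Measure.measure_pos_of_mem_nhds _ h1
  exact h2.trans_le (Measure.le_map_apply continuous_emb.measurable.aemeasurable U)

/-! ### The derivative along the invariant torus -/

/-- The unstable eigenvector. -/
noncomputable def eu : Vec 3 := WithLp.toLp 2 ![φ, 1, 0]

/-- The fibre direction. -/
noncomputable def ez : Vec 3 := WithLp.toLp 2 ![0, 0, 1]

lemma norm_ez : ‖ez‖ = 1 := by
  unfold ez
  rw [EuclideanSpace.norm_eq, Fin.sum_univ_three]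
  simp

lemma eu_ne_zero : eu ≠ 0 := by
  intro h
  have h1 : eu 1 = 0 := by rw [h]; rfl
  have h2 : eu 1 = 1 := rfl
  rw [h2] at h1
  exact one_ne_zero h1

lemma ez_ne_zero : ez ≠ 0 := by
  intro h
  have := norm_ez
  rw [h, norm_zero] at this
  exact zero_ne_one this

lemma eu_mem (p : Torus 3) : eu ∈ Ecu p := by
  rw [mem_Ecu]
  show φ = φ * 1
  ring

lemma ez_mem (p : Torus 3) : ez ∈ Ecu p := by
  rw [mem_Ecu]
  show (0 : ℝ) = φ * 0
  ring

lemma Ecu_decomp {p : Torus 3} {v : Vec 3} (hv : v ∈ Ecu p) : v = v 1 • eu + v 2 • ez := by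
  rw [mem_Ecu] at hv
  ext i
  fin_cases i
  · show v 0 = v 1 * φ + v 2 * 0
    linarith
  · show v 1 = v 1 * 1 + v 2 * 0
    ring
  · show v 2 = v 1 * 0 + v 2 * 1
    ring

lemma aT_emb (z : Torus 2) : aT (emb z) = Real.exp (la z) := rfl

lemma b0T_emb (z : Torus 2) : b0T (emb z) = 0 := by
  unfold b0T
  rw [show emb z 2 = 0 from rfl, sC_zero]
  simp

lemma b1T_emb (z : Torus 2) : b1T (emb z) = 0 := by
  unfold b1T
  rw [show emb z 2 = 0 from rfl, sC_zero]
  simp

lemma slT_emb (z : Torus 2) : slT (emb z) = Real.exp (la z) := by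
  unfold slT slR
  rw [show emb z 2 = 0 from rfl, cC_zero, aT_emb]
  ring

lemma L_emb_eu (z : Torus 2) : L (emb z) eu = φ • eu := by
  ext i
  fin_cases i
  · show L (emb z) eu 0 = φ * φ
    rw [L_apply_zero]
    show φ + 1 = φ * φ
    linarith [Real.goldenRatio_sq]
  · show L (emb z) eu 1 = φ * 1
    rw [L_apply_one]
    show φ = φ * 1
    ring
  · show L (emb z) eu 2 = φ * 0
    rw [L_apply_two, b0T_emb, b1T_emb]
    show 0 * φ + 0 * 1 + slT (emb z) * 0 = φ * 0
    ring

lemma L_emb_ez (z : Torus 2) : L (emb z) ez = Real.exp (la z) • ez := by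
  ext i
  fin_cases i
  · show L (emb z) ez 0 = Real.exp (la z) * 0
    rw [L_apply_zero]
    show (0 : ℝ) + 0 = Real.exp (la z) * 0
    ring
  · show L (emb z) ez 1 = Real.exp (la z) * 0
    rw [L_apply_one]
    show (0 : ℝ) = Real.exp (la z) * 0
    ring
  · show L (emb z) ez 2 = Real.exp (la z) * 1
    rw [L_apply_two, b0T_emb, b1T_emb, slT_emb]
    show 0 * 0 + 0 * 0 + Real.exp (la z) * 1 = Real.exp (la z) * 1
    ring

lemma D_emb_eu (n : ℕ) (z : Torus 2) : D fT n (emb z) eu = φ ^ n • eu := by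
  induction n generalizing z with
  | zero => rw [D_zero]; simp
  | succ n ih =>
    rw [D_succ, L_emb_eu, map_smul, fFun_emb, ih, smul_smul]
    congr 1
    ring

lemma D_emb_ez (n : ℕ) (z : Torus 2) :
    D fT n (emb z) ez = Real.exp (∑ k ∈ Finset.range n, la (A2^[k] z)) • ez := by
  induction n generalizing z with
  | zero => rw [D_zero]; simp
  | succ n ih =>
    rw [D_succ, L_emb_ez, map_smul, fFun_emb, ih, smul_smul, ← Real.exp_add,
      Finset.sum_range_succ']
    congr 2
    simp only [Function.iterate_succ_apply, Function.iterate_zero, id_eq]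
    ring

lemma hasExponent_eu (z : Torus 2) : HasExponent fT (emb z) eu (Real.log φ) := by
  unfold HasExponent
  have h1 : Tendsto (fun n : ℕ => Real.log φ + Real.log ‖eu‖ / n) atTop
      (𝓝 (Real.log φ + 0)) :=
    tendsto_const_nhds.add (tendsto_const_div_atTop_nhds_zero_nat _)
  rw [add_zero] at h1
  refine h1.congr' ?_
  filter_upwards [eventually_gt_atTop 0] with n hn
  have hn' : (n : ℝ) ≠ 0 := by exact_mod_cast hn.ne'
  have h2 : ‖eu‖ ≠ 0 := norm_ne_zero_iff.mpr eu_ne_zero
  rw [D_emb_eu, norm_smul, norm_pow, Real.norm_eq_abs, abs_of_pos Real.goldenRatio_pos,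
    Real.log_mul (pow_ne_zero _ Real.goldenRatio_ne_zero) h2, Real.log_pow]
  field_simp

lemma hasExponent_ez {z : Torus 2} (hz : Tendsto
    (fun N : ℕ => (∑ k ∈ Finset.range N, la (A2^[k] z)) / N) atTop (𝓝 (-(7 / 40)))) :
    HasExponent fT (emb z) ez (-(7 / 40)) := by
  unfold HasExponent
  refine hz.congr fun n => ?_
  rw [D_emb_ez, norm_smul, norm_ez, mul_one, Real.norm_eq_abs, abs_of_pos (Real.exp_pos _),
    Real.log_exp]

/-! ### Absence of a dominated subsplitting -/

lemma dom_contra {C r α K : ℝ} {V W g : ℕ → ℝ} (hC : 0 < C) (hr0 : 0 < r) (hr1 : r < 1)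
    (hdom : ∀ n, V n ≤ C * r ^ n * W n) (hV : ∀ n, α * g n ≤ V n)
    (hW : ∀ᶠ n in atTop, W n ≤ K * g n) (hg : ∀ n, 0 < g n) : α ≤ 0 := by
  have h1 : Tendsto (fun n : ℕ => C * r ^ n * K) atTop (𝓝 (C * 0 * K)) :=
    ((tendsto_pow_atTop_nhds_zero_of_lt_one hr0.le hr1).const_mul C).mul_const K
  rw [mul_zero, zero_mul] at h1
  refine ge_of_tendsto h1 ?_
  filter_upwards [hW] with n hn
  have h2 : α * g n ≤ C * r ^ n * K * g n := by
    calc α * g n ≤ V n := hV n
      _ ≤ C * r ^ n * W n := hdom n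
      _ ≤ C * r ^ n * (K * g n) := by
        apply mul_le_mul_of_nonneg_left hn
        positivity
      _ = C * r ^ n * K * g n := by ring
  exact le_of_mul_le_mul_right h2 (hg n)

lemma D_emb_upper (n : ℕ) (z : Torus 2) (p : Torus 3) (w : Vec 3) (hw : w ∈ Ecu p) (G : ℝ)
    (h1 : φ ^ n ≤ G) (h2 : Real.exp (∑ k ∈ Finset.range n, la (A2^[k] z)) ≤ G) :
    ‖D fT n (emb z) w‖ ≤ (|w 1| * ‖eu‖ + |w 2|) * G := by
  rw [Ecu_decomp hw, map_add, map_smul, map_smul, D_emb_eu, D_emb_ez, ← Ecu_decomp hw]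
  refine (norm_add_le _ _).trans ?_
  rw [norm_smul, norm_smul, norm_smul, norm_smul, norm_ez, norm_pow, Real.norm_eq_abs,
    Real.norm_eq_abs, Real.norm_eq_abs, Real.norm_eq_abs, abs_of_pos Real.goldenRatio_pos,
    abs_of_pos (Real.exp_pos _), mul_one]
  have h3 : |w 1| * (φ ^ n * ‖eu‖) ≤ |w 1| * (G * ‖eu‖) := by
    apply mul_le_mul_of_nonneg_left _ (abs_nonneg _)
    exact mul_le_mul_of_nonneg_right h1 (norm_nonneg _)
  have h4 : |w 2| * Real.exp (∑ k ∈ Finset.range n, la (A2^[k] z)) ≤ |w 2| * G :=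
    mul_le_mul_of_nonneg_left h2 (abs_nonneg _)
  calc |w 1| * (φ ^ n * ‖eu‖) + |w 2| * Real.exp (∑ k ∈ Finset.range n, la (A2^[k] z))
      ≤ |w 1| * (G * ‖eu‖) + |w 2| * G := add_le_add h3 h4
    _ = (|w 1| * ‖eu‖ + |w 2|) * G := by ring

lemma D_emb_one (n : ℕ) (z : Torus 2) (p : Torus 3) (v : Vec 3) (hv : v ∈ Ecu p) :
    |v 1| * φ ^ n ≤ ‖D fT n (emb z) v‖ := by
  have h1 := abs_coord_le (D fT n (emb z) v) 1
  have h2 : (D fT n (emb z) v) 1 = v 1 * φ ^ n := by
    have h3 : D fT n (emb z) v = v 1 • (φ ^ n • eu)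
        + v 2 • (Real.exp (∑ k ∈ Finset.range n, la (A2^[k] z)) • ez) := by
      rw [← D_emb_eu n z, ← D_emb_ez n z, ← map_smul, ← map_smul, ← map_add, ← Ecu_decomp hv]
    rw [h3]
    show v 1 * (φ ^ n * 1) + v 2 * (Real.exp _ * 0) = v 1 * φ ^ n
    ring
  rw [h2, abs_mul, abs_of_pos (pow_pos Real.goldenRatio_pos n)] at h1
  exact h1

lemma exists_unit {E : Submodule ℝ (Vec 3)} (h : E ≠ ⊥) : ∃ v ∈ E, ‖v‖ = 1 := by
  obtain ⟨v, hv, hv0⟩ := (Submodule.ne_bot_iff E).mp h
  have h1 : ‖v‖ ≠ 0 := norm_ne_zero_iff.mpr hv0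
  refine ⟨‖v‖⁻¹ • v, E.smul_mem _ hv, ?_⟩
  rw [norm_smul, norm_inv, norm_norm]
  exact inv_mul_cancel₀ h1

lemma la_zero : la 0 = 1 / 2 := by
  unfold la
  rw [show (0 : Torus 2) 0 = 0 from rfl, show (0 : Torus 2) 1 = 0 from rfl, cC_zero]
  norm_num

theorem not_hasDominatedSubsplitting (S : Set (Torus 3)) (hS : ∀ z, emb z ∈ S) :
    ¬ HasDominatedSubsplitting fT S Ecu := by
  rintro ⟨E₁, E₂, hE₁, _, hsplit, C, r, hC, hr0, hr1, hdom⟩
  have hsub1 : ∀ z, E₁ (emb z) ≤ Ecu (emb z) := fun z => by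
    rw [← (hsplit _ (hS z)).2.2.2]
    exact le_sup_left
  have hsub2 : ∀ z, E₂ (emb z) ≤ Ecu (emb z) := fun z => by
    rw [← (hsplit _ (hS z)).2.2.2]
    exact le_sup_right
  -- almost everywhere the dominated bundle is the fibre direction
  have hae : ∀ᵐ z : Torus 2, ez ∈ E₁ (emb z) := by
    filter_upwards [ae_avg_A2] with z hz
    obtain ⟨v, hv, hv1⟩ := exists_unit (hsplit _ (hS z)).1
    obtain ⟨w, hw, hw1⟩ := exists_unit (hsplit _ (hS z)).2.1
    have hv' := hsub1 z hv
    have hw' := hsub2 z hw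
    have h0 : |v 1| ≤ 0 := by
      refine dom_contra (V := fun n => ‖D fT n (emb z) v‖) (W := fun n => ‖D fT n (emb z) w‖)
        (g := fun n => φ ^ n) (K := |w 1| * ‖eu‖ + |w 2|) hC hr0 hr1
        (fun n => hdom _ (hS z) n v hv w hw hv1 hw1) (fun n => D_emb_one n z _ v hv') ?_
        (fun n => pow_pos Real.goldenRatio_pos n)
      have h1 : ∀ᶠ n : ℕ in atTop, (∑ k ∈ Finset.range n, la (A2^[k] z)) / n < 0 :=
        hz.eventually (gt_mem_nhds (by norm_num))
      filter_upwards [h1, eventually_gt_atTop 0] with n hn hn0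
      apply D_emb_upper n z _ w hw' _ le_rfl
      have h2 : (0 : ℝ) < n := by exact_mod_cast hn0
      have h3 : ∑ k ∈ Finset.range n, la (A2^[k] z) < 0 := by
        rw [div_lt_iff₀ h2, zero_mul] at hn
        exact hn
      calc Real.exp (∑ k ∈ Finset.range n, la (A2^[k] z)) ≤ 1 := by
            rw [Real.exp_le_one_iff]; exact h3.le
        _ ≤ φ ^ n := one_le_pow₀ Real.one_lt_goldenRatio.le
    have h1 : v 1 = 0 := abs_nonpos_iff.mp h0
    have h2 := Ecu_decomp hv'
    rw [h1, zero_smul, zero_add] at h2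
    have h3 : v 2 ≠ 0 := by
      intro h3
      rw [h3, zero_smul] at h2
      rw [h2, norm_zero] at hv1
      exact zero_ne_one hv1
    have h4 : ez = (v 2)⁻¹ • v := by
      rw [h2]
      show ez = ((v 2 • ez) 2)⁻¹ • (v 2 • ez)
      rw [show (v 2 • ez) 2 = v 2 * 1 from rfl, mul_one, smul_smul, inv_mul_cancel₀ h3, one_smul]
    rw [h4]
    exact (E₁ (emb z)).smul_mem _ hv
  -- hence everywhere
  have hall : ∀ z : Torus 2, ez ∈ E₁ (emb z) := by
    have hcont : Continuous fun z : Torus 2 => (E₁ (emb z)).starProjection ez := by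
      have h1 : Continuous fun z : Torus 2 => (E₁ (emb z)).starProjection :=
        hE₁.continuousOn.comp_continuous continuous_emb hS
      exact h1.clm_apply continuous_const
    have hclosed : IsClosed {z : Torus 2 | (E₁ (emb z)).starProjection ez = ez} :=
      isClosed_eq hcont continuous_const
    have hdense : Dense {z : Torus 2 | (E₁ (emb z)).starProjection ez = ez} := by
      apply Measure.dense_of_ae (μ := (volume : Measure (Torus 2)))
      filter_upwards [hae] with z hz
      exact Submodule.starProjection_eq_self_iff.mpr hz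
    intro z
    have h1 := hclosed.closure_eq ▸ hdense z
    exact Submodule.starProjection_eq_self_iff.mp h1
  -- contradiction at the fixed point
  obtain ⟨w, hw, hw1⟩ := exists_unit (hsplit _ (hS 0)).2.1
  have hw' := hsub2 0 hw
  have hA : ∀ k : ℕ, A2^[k] 0 = 0 := by
    intro k
    induction k with
    | zero => rfl
    | succ k ih => rw [Function.iterate_succ_apply', ih, map_zero]
  have hsum : ∀ n : ℕ, ∑ k ∈ Finset.range n, la (A2^[k] 0) = n * (1 / 2) := by
    intro n
    simp only [hA, la_zero, Finset.sum_const, Finset.card_range, nsmul_eq_mul]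
  have h0 : (1 : ℝ) ≤ 0 := by
    refine dom_contra (V := fun n => ‖D fT n (emb 0) ez‖) (W := fun n => ‖D fT n (emb 0) w‖)
      (g := fun n => Real.exp (n * (1 / 2))) (K := |w 1| * ‖eu‖ + |w 2|) hC hr0 hr1
      (fun n => hdom _ (hS 0) n ez (hall 0) w hw norm_ez hw1) (fun n => ?_) ?_
      (fun n => Real.exp_pos _)
    · rw [D_emb_ez, hsum, norm_smul, norm_ez, Real.norm_eq_abs, abs_of_pos (Real.exp_pos _)]
      linarith
    · refine Eventually.of_forall fun n => ?_
      apply D_emb_upper n 0 _ w hw'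
      · rw [Real.exp_nat_mul]
        apply pow_le_pow_left₀ Real.goldenRatio_pos.le
        have := gold_upper
        have := exp_half_gt
        linarith
      · rw [hsum]
  linarith

end Pool.Agent.H.MP_40f8bf_an
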