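import Pool.Agent.H.MP_40f8bf_an.Defs
import Pool.Agent.H.MP_40f8bf_an.Fiber

set_option autoImplicit false

open MeasureTheory Filter Topology
open scoped ContDiff

namespace Pool.Agent.H.MP_40f8bf_an

/-! ### Cosine and sine on the circle -/

/-- `cos (2 π x)` on the circle. -/
noncomputable def cC (x : AddCircle (1 : ℝ)) : ℝ := (AddCircle.toCircle x : ℂ).re

/-- `sin (2 π x)` on the circle. -/
noncomputable def sC (x : AddCircle (1 : ℝ)) : ℝ := (AddCircle.toCircle x : ℂ).im

lemma cC_coe (t : ℝ) : cC (t : AddCircle (1 : ℝ)) = Real.cos (2 * Real.pi * t) := by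
  unfold cC
  rw [AddCircle.toCircle_apply_mk, Circle.coe_exp, div_one]
  exact Complex.exp_ofReal_mul_I_re _

lemma sC_coe (t : ℝ) : sC (t : AddCircle (1 : ℝ)) = Real.sin (2 * Real.pi * t) := by
  unfold sC
  rw [AddCircle.toCircle_apply_mk, Circle.coe_exp, div_one]
  exact Complex.exp_ofReal_mul_I_im _

@[fun_prop]
lemma continuous_cC : Continuous cC := by
  unfold cC
  exact Complex.continuous_re.comp (continuous_subtype_val.comp AddCircle.continuous_toCircle)

@[fun_prop]
lemma continuous_sC : Continuous sC := by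
  unfold sC
  exact Complex.continuous_im.comp (continuous_subtype_val.comp AddCircle.continuous_toCircle)

lemma abs_cC_le (x : AddCircle (1 : ℝ)) : |cC x| ≤ 1 := by
  induction x using QuotientAddGroup.induction_on with
  | H t => exact (cC_coe t) ▸ Real.abs_cos_le_one _

lemma cC_zero : cC 0 = 1 := by
  simp [cC]

lemma sC_zero : sC 0 = 0 := by
  simp [sC]

/-! ### The map -/

/-- The fibre multiplier along the invariant torus. -/
noncomputable def aT (p : Torus 3) : ℝ := aR (cC (p 0)) (cC (p 1))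

/-- The fibre displacement. -/
noncomputable def hT (p : Torus 3) : ℝ :=
  (aT p - 49 / 50) * (sC (p 2) * cC (p 2) * (1 + 2 * cC (p 2) ^ 2)) / (6 * Real.pi)
    - sC (p 2) / (100 * Real.pi)

/-- The slope of the fibre map. -/
noncomputable def slT (p : Torus 3) : ℝ := slR (aT p) (cC (p 2))

lemma aT_bounds (p : Torus 3) : 0.66 ≤ aT p ∧ aT p ≤ 1.65 :=
  aR_bounds (abs_cC_le _) (abs_cC_le _)

lemma slT_bounds (p : Torus 3) : 0.64 ≤ slT p ∧ slT p ≤ 1.7 :=
  ⟨slR_lower (aT_bounds p).1 (aT_bounds p).2 (abs_cC_le _),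
    slR_upper (aT_bounds p).1 (aT_bounds p).2 (abs_cC_le _)⟩

@[fun_prop]
lemma continuous_aT : Continuous aT := by
  unfold aT aR
  fun_prop

@[fun_prop]
lemma continuous_hT : Continuous hT := by
  unfold hT
  fun_prop

@[fun_prop]
lemma continuous_slT : Continuous slT := by
  unfold slT slR
  fun_prop

lemma hT_eq (p : Torus 3) (y : ℝ) (hy : p 2 = (y : AddCircle (1 : ℝ))) : hT p = hR (aT p) y := by
  unfold hT hR
  rw [hy, cC_coe, sC_coe]

/-- The skew product on the torus. -/
noncomputable def fFun (p : Torus 3) : Torus 3 :=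
  ![p 0 + p 1, p 0, p 2 + ((hT p : ℝ) : AddCircle (1 : ℝ))]

lemma continuous_fFun : Continuous fFun := by
  unfold fFun
  refine continuous_pi fun i => ?_
  fin_cases i
  · show Continuous fun p : Torus 3 => p 0 + p 1
    fun_prop
  · show Continuous fun p : Torus 3 => p 0
    fun_prop
  · show Continuous fun p : Torus 3 => p 2 + ((hT p : ℝ) : AddCircle (1 : ℝ))
    exact (continuous_apply 2).add ((AddCircle.continuous_mk' 1).comp continuous_hT)

lemma fFun_injective : Function.Injective fFun := by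
  intro p q h
  have h0 : p 0 + p 1 = q 0 + q 1 := congrFun h 0
  have h1 : p 0 = q 0 := congrFun h 1
  have h2 : p 2 + ((hT p : ℝ) : AddCircle (1 : ℝ)) = q 2 + ((hT q : ℝ) : AddCircle (1 : ℝ)) :=
    congrFun h 2
  have h3 : p 1 = q 1 := by rw [h1] at h0; exact add_left_cancel h0
  have ha : aT p = aT q := by unfold aT; rw [h1, h3]
  obtain ⟨y, hy⟩ := QuotientAddGroup.mk_surjective (p 2)
  obtain ⟨y', hy'⟩ := QuotientAddGroup.mk_surjective (q 2)
  have hy2 : p 2 = (y : AddCircle (1 : ℝ)) := hy.symm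
  have hy2' : q 2 = (y' : AddCircle (1 : ℝ)) := hy'.symm
  rw [hT_eq p y hy2, hT_eq q y' hy2', hy2, hy2', ha, ← AddCircle.coe_add, ← AddCircle.coe_add,
    ← sub_eq_zero, ← AddCircle.coe_sub, AddCircle.coe_eq_zero_iff] at h2
  obtain ⟨k, hk⟩ := h2
  have h4 : y + hR (aT q) y = (y' + k) + hR (aT q) (y' + k) := by
    rw [hR_add_int]
    simp only [zsmul_eq_mul, mul_one] at hk
    linarith
  have h5 := (strictMono_fib (aT_bounds q).1 (aT_bounds q).2).injective h4
  have h6 : p 2 = q 2 := by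
    rw [hy2, hy2', h5, ← sub_eq_zero, ← AddCircle.coe_sub, AddCircle.coe_eq_zero_iff]
    exact ⟨k, by simp⟩
  funext i
  fin_cases i
  · exact h1
  · exact h3
  · exact h6

lemma fFun_surjective : Function.Surjective fFun := by
  intro w
  obtain ⟨t, ht⟩ := QuotientAddGroup.mk_surjective (w 2)
  obtain ⟨y, hy⟩ := surj_fib (aR (cC (w 1)) (cC (w 0 - w 1))) t
  refine ⟨![w 1, w 0 - w 1, (y : AddCircle (1 : ℝ))], ?_⟩
  have ha : aT ![w 1, w 0 - w 1, (y : AddCircle (1 : ℝ))] = aR (cC (w 1)) (cC (w 0 - w 1)) := rfl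
  have hh := hT_eq ![w 1, w 0 - w 1, (y : AddCircle (1 : ℝ))] y rfl
  funext i
  fin_cases i
  · show w 1 + (w 0 - w 1) = w 0
    abel
  · rfl
  · show (y : AddCircle (1 : ℝ)) + ((hT ![w 1, w 0 - w 1, (y : AddCircle (1 : ℝ))] : ℝ) :
      AddCircle (1 : ℝ)) = w 2
    rw [hh, ha, ← AddCircle.coe_add]
    simp only at hy
    rw [hy]
    exact ht

/-- The skew product as a homeomorphism of the torus. -/
noncomputable def fHomeo : Torus 3 ≃ₜ Torus 3 :=
  Continuous.homeoOfEquivCompactToT2
    (f := Equiv.ofBijective fFun ⟨fFun_injective, fFun_surjective⟩) continuous_fFun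

lemma fHomeo_apply (p : Torus 3) : fHomeo p = fFun p := rfl

/-- The lift of the skew product. -/
noncomputable def liftF (x : Vec 3) : Vec 3 :=
  WithLp.toLp 2 ![x 0 + x 1, x 0, x 2 + hT (proj x)]

lemma proj_liftF (x : Vec 3) : proj (liftF x) = fFun (proj x) := by
  funext i
  fin_cases i
  · exact AddCircle.coe_add _ _ _
  · rfl
  · exact AddCircle.coe_add _ _ _

lemma proj_rep {d : ℕ} (p : Torus d) : proj (rep p) = p := by
  funext i
  exact AddCircle.coe_equivIco

lemma aT_proj (x : Vec 3) :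
    aT (proj x) = Real.exp (-(2 / 5) + 9 / 40 *
      ((1 + Real.cos (2 * Real.pi * x 0)) * (1 + Real.cos (2 * Real.pi * x 1)))) := by
  unfold aT aR proj
  simp only [cC_coe]

lemma hT_proj (x : Vec 3) :
    hT (proj x) = (aT (proj x) - 49 / 50) * (Real.sin (2 * Real.pi * x 2) *
      Real.cos (2 * Real.pi * x 2) * (1 + 2 * Real.cos (2 * Real.pi * x 2) ^ 2)) / (6 * Real.pi)
      - Real.sin (2 * Real.pi * x 2) / (100 * Real.pi) := by
  unfold hT
  simp only [proj, cC_coe, sC_coe]

lemma contDiff_liftF : ContDiff ℝ ∞ liftF := by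
  rw [contDiff_euclidean]
  intro i
  fin_cases i
  · show ContDiff ℝ ∞ fun x : Vec 3 => x 0 + x 1
    fun_prop
  · show ContDiff ℝ ∞ fun x : Vec 3 => x 0
    fun_prop
  · show ContDiff ℝ ∞ fun x : Vec 3 => x 2 + hT (proj x)
    simp only [hT_proj, aT_proj]
    fun_prop

/-- The derivative of the fibre component in the direction of the first base coordinate. -/
noncomputable def b0T (p : Torus 3) : ℝ :=
  aT p * (9 / 40 * (-(2 * Real.pi * sC (p 0)) * (1 + cC (p 1)))) *
    (sC (p 2) * cC (p 2) * (1 + 2 * cC (p 2) ^ 2)) / (6 * Real.pi)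

/-- The derivative of the fibre component in the direction of the second base coordinate. -/
noncomputable def b1T (p : Torus 3) : ℝ :=
  aT p * (9 / 40 * ((1 + cC (p 0)) * -(2 * Real.pi * sC (p 1)))) *
    (sC (p 2) * cC (p 2) * (1 + 2 * cC (p 2) ^ 2)) / (6 * Real.pi)

@[fun_prop]
lemma continuous_b0T : Continuous b0T := by
  unfold b0T
  fun_prop

@[fun_prop]
lemma continuous_b1T : Continuous b1T := by
  unfold b1T
  fun_prop

/-- The `i`-th coordinate. -/
noncomputable abbrev pr (i : Fin 3) : Vec 3 →L[ℝ] ℝ := EuclideanSpace.proj i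

/-- The derivative of the skew product. -/
noncomputable def L (p : Torus 3) : Vec 3 →L[ℝ] Vec 3 :=
  (EuclideanSpace.equiv (Fin 3) ℝ).symm.toContinuousLinearMap.comp
    (ContinuousLinearMap.pi ![pr 0 + pr 1, pr 0, b0T p • pr 0 + b1T p • pr 1 + slT p • pr 2])

lemma L_apply_zero (p : Torus 3) (v : Vec 3) : L p v 0 = v 0 + v 1 := rfl
lemma L_apply_one (p : Torus 3) (v : Vec 3) : L p v 1 = v 0 := rfl
lemma L_apply_two (p : Torus 3) (v : Vec 3) :
    L p v 2 = b0T p * v 0 + b1T p * v 1 + slT p * v 2 := rfl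

lemma hasFDerivAt_liftF (x : Vec 3) : HasFDerivAt liftF (L (proj x)) x := by
  rw [← hasFDerivWithinAt_univ, hasFDerivWithinAt_euclidean]
  intro i
  rw [hasFDerivWithinAt_univ]
  have hx : ∀ i : Fin 3, HasFDerivAt (fun x : Vec 3 => x i) (pr i) x := fun i =>
    (pr i).hasFDerivAt
  fin_cases i
  · exact ((hx 0).add (hx 1))
  · exact hx 0
  · have e : (fun x : Vec 3 => liftF x 2) = fun x : Vec 3 => x 2 +
        ((Real.exp (-(2 / 5) + 9 / 40 *
          ((1 + Real.cos (2 * Real.pi * x 0)) * (1 + Real.cos (2 * Real.pi * x 1)))) - 49 / 50) *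
          (Real.sin (2 * Real.pi * x 2) * Real.cos (2 * Real.pi * x 2) *
            (1 + 2 * Real.cos (2 * Real.pi * x 2) ^ 2)) * (6 * Real.pi)⁻¹
        - Real.sin (2 * Real.pi * x 2) * (100 * Real.pi)⁻¹) := by
      funext x
      show x 2 + hT (proj x) = _
      rw [hT_proj, aT_proj]
      simp only [div_eq_mul_inv]
    show HasFDerivAt (fun x : Vec 3 => liftF x 2) _ x
    rw [e]
    have c : ∀ i : Fin 3, HasFDerivAt (fun x : Vec 3 => 2 * Real.pi * x i)
        ((2 * Real.pi) • pr i) x := fun i => (hx i).const_mul (2 * Real.pi)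
    have h1 := ((((c 0).cos.const_add 1).mul ((c 1).cos.const_add 1)).const_mul
      (9 / 40)).const_add (-(2 / 5)) |>.exp |>.sub_const (49 / 50)
    have h2 := ((c 2).sin.mul (c 2).cos).mul ((((c 2).cos.pow 2).const_mul 2).const_add 1)
    have h3 := (hx 2).add (((h1.mul h2).mul_const (6 * Real.pi)⁻¹).sub
      ((c 2).sin.mul_const (100 * Real.pi)⁻¹))
    refine h3.congr_fderiv ?_
    ext v
    have g : (pr 2 ∘L L (proj x)) v
        = b0T (proj x) * v 0 + b1T (proj x) * v 1 + slT (proj x) * v 2 := rfl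
    show _ = (pr 2 ∘L L (proj x)) v
    rw [g]
    have hpi : Real.pi ≠ 0 := Real.pi_ne_zero
    have hsc : Real.sin (2 * Real.pi * x 2) ^ 2 = 1 - Real.cos (2 * Real.pi * x 2) ^ 2 := by
      have := Real.sin_sq_add_cos_sq (2 * Real.pi * x 2)
      linarith
    unfold b0T b1T slT slR
    rw [aT_proj]
    simp only [proj, cC_coe, sC_coe, add_apply, smul_apply, sub_apply, Pi.mul_apply, smul_eq_mul, nsmul_eq_mul,
      EuclideanSpace.coe_proj, pr]
    generalize Real.exp (-(2 / 5) + 9 / 40 *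
      ((1 + Real.cos (2 * Real.pi * x 0)) * (1 + Real.cos (2 * Real.pi * x 1)))) = A
    generalize Real.sin (2 * Real.pi * x 2) = s at *
    generalize Real.cos (2 * Real.pi * x 2) = c at *
    generalize Real.sin (2 * Real.pi * x 1) = s1 at *
    generalize Real.cos (2 * Real.pi * x 1) = c1 at *
    generalize Real.sin (2 * Real.pi * x 0) = s0 at *
    generalize Real.cos (2 * Real.pi * x 0) = c0 at *
    have hpi2 : Real.pi * Real.pi⁻¹ = 1 := mul_inv_cancel₀ hpi
    push_cast
    linear_combination ((1 / 3 * (A - 49 / 50) * (-(4 * s ^ 2 * c ^ 2)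
      + (1 + 2 * c ^ 2) * (c ^ 2 - s ^ 2)) - c / 50) * v 2) * hpi2
      - (1 / 3 * (A - 49 / 50) * v 2 * (1 + 6 * c ^ 2)) * hsc

lemma norm_le_three (w : Vec 3) : ‖w‖ ≤ |w 0| + |w 1| + |w 2| := by
  rw [EuclideanSpace.norm_eq, Fin.sum_univ_three]
  simp only [Real.norm_eq_abs, sq_abs]
  apply Real.sqrt_le_iff.mpr
  refine ⟨by positivity, ?_⟩
  have h0 := sq_abs (w 0)
  have h1 := sq_abs (w 1)
  have h2 := sq_abs (w 2)
  nlinarith [mul_nonneg (abs_nonneg (w 0)) (abs_nonneg (w 1)),
    mul_nonneg (abs_nonneg (w 0)) (abs_nonneg (w 2)),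
    mul_nonneg (abs_nonneg (w 1)) (abs_nonneg (w 2))]

lemma abs_coord_le (w : Vec 3) (i : Fin 3) : |w i| ≤ ‖w‖ := by
  have := PiLp.norm_apply_le w i
  rwa [Real.norm_eq_abs] at this

lemma L_injective (p : Torus 3) : Function.Injective (L p) := by
  rw [injective_iff_map_eq_zero]
  intro v hv
  have h0 : v 0 + v 1 = 0 := by rw [← L_apply_zero p v, hv]; rfl
  have h1 : v 0 = 0 := by rw [← L_apply_one p v, hv]; rfl
  have h2 : b0T p * v 0 + b1T p * v 1 + slT p * v 2 = 0 := by rw [← L_apply_two p v, hv]; rfl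
  have h3 : v 1 = 0 := by linarith
  rw [h1, h3] at h2
  have h4 : slT p ≠ 0 := by
    have := (slT_bounds p).1
    intro h
    rw [h] at this
    norm_num at this
  have h5 : v 2 = 0 := by
    have : slT p * v 2 = 0 := by linarith
    exact (mul_eq_zero.mp this).resolve_left h4
  ext i
  fin_cases i
  · exact h1
  · exact h3
  · exact h5

lemma L_bijective (p : Torus 3) : Function.Bijective (L p) :=
  ⟨L_injective p, (LinearMap.injective_iff_surjective
    (f := (L p : Vec 3 →ₗ[ℝ] Vec 3))).mp (L_injective p)⟩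

/-- The skew product as a smooth diffeomorphism of the torus. -/
noncomputable def fT : TorusDiffeo 3 where
  toHomeo := fHomeo
  lift := liftF
  smooth := contDiff_liftF
  isLift := proj_liftF
  bijective_fderiv := fun x => by
    rw [(hasFDerivAt_liftF x).fderiv]
    exact L_bijective _

/-- The derivative of the `n`-th iterate as a product. -/
noncomputable def Ln : ℕ → Torus 3 → (Vec 3 →L[ℝ] Vec 3)
  | 0, _ => ContinuousLinearMap.id ℝ _
  | n + 1, p => (Ln n (fFun p)).comp (L p)

lemma hasFDerivAt_iterate (n : ℕ) (x : Vec 3) :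
    HasFDerivAt (liftF^[n]) (Ln n (proj x)) x := by
  induction n generalizing x with
  | zero => exact hasFDerivAt_id x
  | succ n ih =>
    rw [Function.iterate_succ]
    have h1 := ih (liftF x)
    rw [proj_liftF] at h1
    exact h1.comp x (hasFDerivAt_liftF x)

lemma D_eq (n : ℕ) (p : Torus 3) : D fT n p = Ln n p := by
  unfold D
  show fderiv ℝ (liftF^[n]) (rep p) = _
  rw [(hasFDerivAt_iterate n (rep p)).fderiv, proj_rep]

lemma D_one (p : Torus 3) : D fT 1 p = L p := by
  rw [D_eq]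
  show (ContinuousLinearMap.id ℝ _).comp (L p) = L p
  exact ContinuousLinearMap.id_comp _

lemma D_succ (n : ℕ) (p : Torus 3) (v : Vec 3) : D fT (n + 1) p v = D fT n (fFun p) (L p v) := by
  rw [D_eq, D_eq]
  rfl

lemma D_zero (p : Torus 3) (v : Vec 3) : D fT 0 p v = v := by
  rw [D_eq]
  rfl

end Pool.Agent.H.MP_40f8bf_an
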