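import Pool.Agent.H.MP_40f8bf_an.Unst

set_option autoImplicit false

open MeasureTheory Filter Topology ProbabilityTheory
open scoped goldenRatio ENNReal

namespace Pool.Agent.H.MP_40f8bf_an

/-! ### Representatives -/

/-- The representative of a point of the circle in `[0, 1)`. -/
noncomputable def rp (x : AddCircle (1 : ℝ)) : ℝ := (AddCircle.equivIco (1 : ℝ) 0 x : ℝ)

lemma rp_mem (x : AddCircle (1 : ℝ)) : rp x ∈ Set.Ico (0 : ℝ) 1 := by
  have h := (AddCircle.equivIco (1 : ℝ) 0 x).2
  exact ⟨h.1, h.2.trans_eq (zero_add 1)⟩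

lemma coe_rp (x : AddCircle (1 : ℝ)) : ((rp x : ℝ) : AddCircle (1 : ℝ)) = x :=
  AddCircle.coe_equivIco

lemma rp_coe {y : ℝ} (hy : y ∈ Set.Ico (0 : ℝ) 1) : rp (y : AddCircle (1 : ℝ)) = y := by
  apply coe_eq_of_small (coe_rp _)
  have := rp_mem (y : AddCircle (1 : ℝ))
  rw [abs_lt]
  constructor <;> linarith [this.1, this.2, hy.1, hy.2]

lemma measurable_rp : Measurable rp :=
  measurable_subtype_coe.comp (AddCircle.measurableEquivIco (1 : ℝ) 0).measurable

/-- The labelling of the elements of the measurable partition. -/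
noncomputable def tauF (p : Torus 3) : ℝ :=
  open Classical in if p 2 = 0 then rp (p 0) - φ * rp (p 1) else 5

lemma tauF_of_zero {p : Torus 3} (hp : p 2 = 0) : tauF p = rp (p 0) - φ * rp (p 1) := if_pos hp

lemma tauF_of_ne {p : Torus 3} (hp : p 2 ≠ 0) : tauF p = 5 := if_neg hp

lemma tauF_emb (z : Torus 2) : tauF (emb z) = rp (z 0) - φ * rp (z 1) := tauF_of_zero rfl

lemma tauF_lt_five {p : Torus 3} (hp : p 2 = 0) : tauF p < 5 := by
  rw [tauF_of_zero hp]
  have h1 := (rp_mem (p 0)).2
  have h2 := (rp_mem (p 1)).1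
  have h3 := Real.goldenRatio_pos
  nlinarith [mul_nonneg h3.le h2]

lemma measurable_tauF : Measurable tauF := by
  unfold tauF
  apply Measurable.ite
  · exact (isClosed_eq (continuous_apply 2) continuous_const).measurableSet
  · have h0 : Measurable fun p : Torus 3 => rp (p 0) := measurable_rp.comp (measurable_pi_apply 0)
    have h1 : Measurable fun p : Torus 3 => rp (p 1) := measurable_rp.comp (measurable_pi_apply 1)
    exact h0.sub (h1.const_mul φ)
  · exact measurable_const

/-- The parameters of the segment with label `c`. -/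
def Iseg (c : ℝ) : Set ℝ := {t | t ∈ Set.Ico (0 : ℝ) 1 ∧ c + φ * t ∈ Set.Ico (0 : ℝ) 1}

/-- The point with parameter `t` on the line with label `c`. -/
noncomputable def pt (c t : ℝ) : Torus 3 :=
  emb ![((c + φ * t : ℝ) : AddCircle (1 : ℝ)), (t : AddCircle (1 : ℝ))]

lemma tauF_pt {c t : ℝ} (ht : t ∈ Iseg c) : tauF (pt c t) = c := by
  unfold pt
  rw [tauF_emb]
  show rp ((c + φ * t : ℝ) : AddCircle (1 : ℝ)) - φ * rp (t : AddCircle (1 : ℝ)) = c
  rw [rp_coe ht.1, rp_coe ht.2]
  ring

lemma measurable_pt_uncurry : Measurable fun w : ℝ × ℝ => pt w.1 w.2 := by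
  apply continuous_emb.measurable.comp
  apply measurable_pi_lambda
  intro i
  fin_cases i
  · exact AddCircle.measurable_mk'.comp (measurable_fst.add (measurable_snd.const_mul φ))
  · exact AddCircle.measurable_mk'.comp measurable_snd

lemma measurable_pt (c : ℝ) : Measurable (pt c) :=
  measurable_pt_uncurry.comp (measurable_const.prodMk measurable_id)

lemma measurableSet_Iseg_uncurry : MeasurableSet {w : ℝ × ℝ | w.2 ∈ Iseg w.1} := by
  have h1 : MeasurableSet {w : ℝ × ℝ | w.2 ∈ Set.Ico (0 : ℝ) 1} :=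
    measurable_snd measurableSet_Ico
  have h2 : MeasurableSet {w : ℝ × ℝ | w.1 + φ * w.2 ∈ Set.Ico (0 : ℝ) 1} :=
    (measurable_fst.add (measurable_snd.const_mul φ)) measurableSet_Ico
  exact h1.inter h2

lemma measurableSet_Iseg (c : ℝ) : MeasurableSet (Iseg c) :=
  (measurable_const.prodMk measurable_id : Measurable fun t : ℝ => (c, t))
    measurableSet_Iseg_uncurry

lemma volume_Iseg_le (c : ℝ) : volume (Iseg c) ≤ 1 := by
  have h : Iseg c ⊆ Set.Ico (0 : ℝ) 1 := fun t ht => ht.1
  refine (measure_mono h).trans ?_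
  rw [Real.volume_Ico]
  simp

lemma volume_Iseg_ne_top (c : ℝ) : volume (Iseg c) ≠ ∞ :=
  ((volume_Iseg_le c).trans_lt ENNReal.one_lt_top).ne

/-! ### Lebesgue measure on the torus in coordinates -/

/-- The covering of the two-torus by the plane. -/
noncomputable def R2 (w : ℝ × ℝ) : Torus 2 :=
  ![(w.1 : AddCircle (1 : ℝ)), (w.2 : AddCircle (1 : ℝ))]

lemma measurePreserving_mkIco : MeasurePreserving (fun x : ℝ => (x : AddCircle (1 : ℝ)))
    (volume.restrict (Set.Ico (0 : ℝ) 1)) volume := by
  have h := AddCircle.measurePreserving_mk (1 : ℝ) 0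
  rw [zero_add] at h
  rwa [Measure.restrict_congr_set (Ico_ae_eq_Ioc (μ := volume) (a := (0 : ℝ)) (b := 1))]

lemma measurePreserving_R2 : MeasurePreserving R2
    (volume.restrict (Set.Ico (0 : ℝ) 1 ×ˢ Set.Ico (0 : ℝ) 1)) volume := by
  have h1 := measurePreserving_mkIco.prod measurePreserving_mkIco
  rw [Measure.prod_restrict] at h1
  have h2 := (volume_preserving_finTwoArrow (AddCircle (1 : ℝ))).symm
  exact h2.comp h1

lemma lintegral_muT {F : Torus 3 → ℝ≥0∞} (hF : Measurable F) :
    ∫⁻ p, F p ∂muT = ∫⁻ c, ∫⁻ t in Iseg c, F (pt c t) := by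
  set Q : Set (ℝ × ℝ) := Set.Ico (0 : ℝ) 1 ×ˢ Set.Ico (0 : ℝ) 1 with hQ
  have hQm : MeasurableSet Q := measurableSet_Ico.prod measurableSet_Ico
  set H : ℝ × ℝ → ℝ≥0∞ := Q.indicator fun w => F (emb (R2 w)) with hH
  have hR2 : Measurable R2 := measurePreserving_R2.measurable
  have hHm : Measurable H :=
    (hF.comp (continuous_emb.measurable.comp hR2)).indicator hQm
  have e1 : ∫⁻ p, F p ∂muT = ∫⁻ w, H w := by
    have hFe : Measurable fun z : Torus 2 => F (emb z) := hF.comp continuous_emb.measurable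
    rw [muT, lintegral_map hF continuous_emb.measurable, ← measurePreserving_R2.map_eq,
      lintegral_map hFe hR2, hH, lintegral_indicator hQm]
  have e2 : ∫⁻ w, H w = ∫⁻ y, ∫⁻ x, H (x, y) := by
    rw [Measure.volume_eq_prod, lintegral_prod_symm' H hHm]
  have e3 : ∫⁻ y, ∫⁻ x, H (x, y) = ∫⁻ y, ∫⁻ x, H (x + φ * y, y) := by
    congr 1
    funext y
    exact (lintegral_add_right_eq_self (fun x => H (x, y)) (φ * y)).symm
  have e4 : ∫⁻ y, ∫⁻ x, H (x + φ * y, y) = ∫⁻ x, ∫⁻ y, H (x + φ * y, y) := by
    apply lintegral_lintegral_swap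
    apply Measurable.aemeasurable
    exact hHm.comp ((measurable_snd.add (measurable_fst.const_mul φ)).prodMk measurable_fst)
  rw [e1, e2, e3, e4]
  congr 1
  funext c
  rw [← lintegral_indicator (measurableSet_Iseg c)]
  congr 1
  funext t
  by_cases ht : t ∈ Iseg c
  · rw [Set.indicator_of_mem ht, hH, Set.indicator_of_mem (show (c + φ * t, t) ∈ Q from
      ⟨ht.2, ht.1⟩)]
    rfl
  · rw [Set.indicator_of_notMem ht, hH, Set.indicator_of_notMem]
    exact fun h => ht ⟨h.2, h.1⟩

/-! ### The conditional measures -/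

/-- The normalised length on the segment with label `c`. -/
noncomputable def kap (c : ℝ) : Measure (Torus 3) :=
  open Classical in if volume (Iseg c) = 0 then Measure.dirac 0
    else (volume (Iseg c))⁻¹ • Measure.map (pt c) (volume.restrict (Iseg c))

lemma kap_of_ne {c : ℝ} (h : volume (Iseg c) ≠ 0) :
    kap c = (volume (Iseg c))⁻¹ • Measure.map (pt c) (volume.restrict (Iseg c)) := if_neg h

lemma kap_of_eq {c : ℝ} (h : volume (Iseg c) = 0) : kap c = Measure.dirac 0 := if_pos h

lemma kap_apply_of_ne {c : ℝ} (h : volume (Iseg c) ≠ 0) {B : Set (Torus 3)}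
    (hB : MeasurableSet B) : kap c B = (volume (Iseg c))⁻¹ * volume (pt c ⁻¹' B ∩ Iseg c) := by
  rw [kap_of_ne h, Measure.smul_apply, smul_eq_mul, Measure.map_apply (measurable_pt c) hB,
    Measure.restrict_apply ((measurable_pt c) hB)]

lemma measurable_volume_Iseg : Measurable fun c => volume (Iseg c) :=
  measurable_measure_prodMk_left measurableSet_Iseg_uncurry

lemma measurable_volume_inter {B : Set (Torus 3)} (hB : MeasurableSet B) :
    Measurable fun c => volume (pt c ⁻¹' B ∩ Iseg c) := by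
  have h1 : MeasurableSet ((fun w : ℝ × ℝ => pt w.1 w.2) ⁻¹' B ∩ {w : ℝ × ℝ | w.2 ∈ Iseg w.1}) :=
    (measurable_pt_uncurry hB).inter measurableSet_Iseg_uncurry
  exact measurable_measure_prodMk_left h1

lemma measurable_kap : Measurable kap := by
  apply Measure.measurable_of_measurable_coe
  intro B hB
  have e : (fun c => kap c B) = fun c => open Classical in
      if volume (Iseg c) = 0 then Measure.dirac 0 B
        else (volume (Iseg c))⁻¹ * volume (pt c ⁻¹' B ∩ Iseg c) := by
    funext c
    by_cases h : volume (Iseg c) = 0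
    · rw [if_pos h, kap_of_eq h]
    · rw [if_neg h, kap_apply_of_ne h hB]
  rw [e]
  apply Measurable.ite
  · exact measurable_volume_Iseg (measurableSet_singleton 0)
  · exact measurable_const
  · exact measurable_volume_Iseg.inv.mul (measurable_volume_inter hB)

/-- The conditional measures as a kernel. -/
noncomputable def kapK : Kernel ℝ (Torus 3) := ⟨kap, measurable_kap⟩

lemma kapK_apply (c : ℝ) : kapK c = kap c := rfl

instance isMarkovKernel_kapK : IsMarkovKernel kapK := by
  refine ⟨fun c => ⟨?_⟩⟩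
  rw [kapK_apply]
  by_cases h : volume (Iseg c) = 0
  · rw [kap_of_eq h]
    exact measure_univ
  · rw [kap_apply_of_ne h MeasurableSet.univ, Set.preimage_univ, Set.univ_inter]
    exact ENNReal.inv_mul_cancel h (volume_Iseg_ne_top c)

lemma volume_mul_kap (c : ℝ) {B : Set (Torus 3)} (hB : MeasurableSet B) :
    kap c B * volume (Iseg c) = volume (pt c ⁻¹' B ∩ Iseg c) := by
  by_cases h : volume (Iseg c) = 0
  · rw [h, mul_zero]
    exact (measure_mono_null Set.inter_subset_right h).symm
  · rw [kap_apply_of_ne h hB, mul_comm, ← mul_assoc,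
      ENNReal.mul_inv_cancel h (volume_Iseg_ne_top c), one_mul]

lemma disintegration {B : Set (Torus 3)} (hB : MeasurableSet B) :
    muT B = ∫⁻ p, kapK (tauF p) B ∂muT := by
  have hm : Measurable fun p => kapK (tauF p) B :=
    (Kernel.measurable_coe kapK hB).comp measurable_tauF
  rw [lintegral_muT hm, ← lintegral_indicator_one hB,
    lintegral_muT (measurable_one.indicator hB)]
  congr 1
  funext c
  have e1 : ∫⁻ t in Iseg c, B.indicator 1 (pt c t) = volume (pt c ⁻¹' B ∩ Iseg c) := by
    have : (fun t => B.indicator (1 : Torus 3 → ℝ≥0∞) (pt c t))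
        = (pt c ⁻¹' B).indicator (1 : ℝ → ℝ≥0∞) := by
      funext t
      by_cases h : pt c t ∈ B
      · rw [Set.indicator_of_mem h, Set.indicator_of_mem (show t ∈ pt c ⁻¹' B from h)]
        rfl
      · rw [Set.indicator_of_notMem h, Set.indicator_of_notMem (show t ∉ pt c ⁻¹' B from h)]
    rw [this, lintegral_indicator_one ((measurable_pt c) hB),
      Measure.restrict_apply ((measurable_pt c) hB)]
  have e2 : ∫⁻ t in Iseg c, kapK (tauF (pt c t)) B = kap c B * volume (Iseg c) := by
    rw [setLIntegral_congr_fun (measurableSet_Iseg c)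
      (g := fun _ => kap c B) (fun t ht => by simp only [tauF_pt ht]; rfl)]
    rw [setLIntegral_const]
  rw [e1, e2, volume_mul_kap c hB]

end Pool.Agent.H.MP_40f8bf_an
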