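import Pool.Agent.H.MP_40f8bf_an.Map

set_option autoImplicit false

open MeasureTheory Filter Topology
open scoped ContDiff goldenRatio

namespace Pool.Agent.H.MP_40f8bf_an

/-! ### Numerical facts about the golden mean -/

lemma gold_lower : 1.618 < φ := by
  have h := Real.goldenRatio_sq
  have h1 := Real.goldenRatio_pos
  by_contra hcon
  push Not at hcon
  nlinarith

lemma gold_upper : φ < 1.6181 := by
  have h := Real.goldenRatio_sq
  have h1 := Real.one_lt_goldenRatio
  by_contra hcon
  push Not at hcon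
  nlinarith

lemma conj_eq : ψ = 1 - φ := Real.one_sub_goldenConj.symm

lemma abs_conj_lt : |ψ| < 0.6181 := by
  rw [conj_eq, abs_lt]
  constructor <;> linarith [gold_lower, gold_upper]

lemma abs_conj_pos : 0 < |ψ| := abs_pos.mpr Real.goldenConj_ne_zero

/-! ### The stable bundle -/

/-- The graph transform defining the stable bundle. -/
noncomputable def graphT (s : C(Torus 3, ℝ)) : C(Torus 3, ℝ) where
  toFun p := (ψ * s (fFun p) - ψ * b0T p - b1T p) / slT p
  continuous_toFun := by
    have h : ∀ p, slT p ≠ 0 := fun p => by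
      have := (slT_bounds p).1
      intro h0
      rw [h0] at this
      norm_num at this
    have h1 : Continuous fun p => s (fFun p) := s.continuous.comp continuous_fFun
    exact ((((continuous_const.mul h1).sub (continuous_const.mul continuous_b0T)).sub
      continuous_b1T).div continuous_slT h)

lemma contracting_graphT : ContractingWith (6181 / 6400 : NNReal) graphT := by
  refine ⟨?_, LipschitzWith.of_dist_le_mul fun s s' => ?_⟩
  · rw [← NNReal.coe_lt_coe]
    norm_num
  · rw [show ((6181 / 6400 : NNReal) : ℝ) = 0.6181 / 0.64 by norm_num]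
    rw [ContinuousMap.dist_le (by positivity)]
    intro p
    show dist ((ψ * s (fFun p) - ψ * b0T p - b1T p) / slT p)
      ((ψ * s' (fFun p) - ψ * b0T p - b1T p) / slT p) ≤ (0.6181 / 0.64 : ℝ) * dist s s'
    have hsl := (slT_bounds p).1
    have h0 : (0 : ℝ) < slT p := by linarith
    have h1 : dist (s (fFun p)) (s' (fFun p)) ≤ dist s s' := ContinuousMap.dist_apply_le_dist _
    rw [Real.dist_eq] at h1 ⊢
    have e : (ψ * s (fFun p) - ψ * b0T p - b1T p) / slT p
        - (ψ * s' (fFun p) - ψ * b0T p - b1T p) / slT p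
        = ψ * (s (fFun p) - s' (fFun p)) / slT p := by
      field_simp
      ring
    rw [e, abs_div, abs_mul, abs_of_pos h0, div_le_iff₀ h0]
    have h2 := abs_conj_lt.le
    have h3 : (0 : ℝ) ≤ dist s s' := dist_nonneg
    calc |ψ| * |s (fFun p) - s' (fFun p)| ≤ 0.6181 * dist s s' :=
          mul_le_mul h2 h1 (abs_nonneg _) (by norm_num)
      _ = 0.6181 / 0.64 * dist s s' * 0.64 := by ring
      _ ≤ 0.6181 / 0.64 * dist s s' * slT p := by
          apply mul_le_mul_of_nonneg_left hsl
          positivity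

/-- The slope of the stable bundle. -/
noncomputable def sF : C(Torus 3, ℝ) :=
  ContractingWith.fixedPoint graphT contracting_graphT

lemma sF_eq (p : Torus 3) : slT p * sF p = ψ * sF (fFun p) - ψ * b0T p - b1T p := by
  have h := contracting_graphT.fixedPoint_isFixedPt
  have h1 : graphT sF = sF := h
  have h2 : graphT sF p = sF p := by rw [h1]
  have h3 : graphT sF p = (ψ * sF (fFun p) - ψ * b0T p - b1T p) / slT p := rfl
  have hsl := (slT_bounds p).1
  have h0 : slT p ≠ 0 := by
    have : (0 : ℝ) < slT p := by linarith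
    exact this.ne'
  rw [h3, div_eq_iff h0] at h2
  linarith

/-- A vector spanning the stable bundle. -/
noncomputable def vs (p : Torus 3) : Vec 3 := WithLp.toLp 2 ![ψ, 1, sF p]

lemma vs_zero (p : Torus 3) : vs p 0 = ψ := rfl
lemma vs_one (p : Torus 3) : vs p 1 = 1 := rfl
lemma vs_two (p : Torus 3) : vs p 2 = sF p := rfl

lemma L_vs (p : Torus 3) : L p (vs p) = ψ • vs (fFun p) := by
  ext i
  fin_cases i
  · show L p (vs p) 0 = ψ * vs (fFun p) 0
    rw [L_apply_zero, vs_zero, vs_one, vs_zero]
    have := Real.goldenConj_sq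
    linarith
  · show L p (vs p) 1 = ψ * vs (fFun p) 1
    rw [L_apply_one, vs_zero, vs_one]
    ring
  · show L p (vs p) 2 = ψ * vs (fFun p) 2
    rw [L_apply_two, vs_zero, vs_one, vs_two, vs_two, sF_eq]
    ring

lemma D_vs (n : ℕ) (p : Torus 3) : D fT n p (vs p) = ψ ^ n • vs (fFun^[n] p) := by
  induction n generalizing p with
  | zero => rw [D_zero]; simp
  | succ n ih =>
    rw [D_succ, L_vs, map_smul, ih, smul_smul, Function.iterate_succ_apply]
    congr 1
    ring

/-- The stable bundle. -/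
noncomputable def Es (p : Torus 3) : Submodule ℝ (Vec 3) := Submodule.span ℝ {vs p}

lemma one_le_norm_vs (p : Torus 3) : 1 ≤ ‖vs p‖ := by
  have := abs_coord_le (vs p) 1
  rwa [vs_one, abs_one] at this

lemma vs_ne_zero (p : Torus 3) : vs p ≠ 0 := by
  intro h
  have := one_le_norm_vs p
  rw [h, norm_zero] at this
  linarith

lemma norm_vs_le (p : Torus 3) : ‖vs p‖ ≤ 2 + ‖sF‖ := by
  have h := norm_le_three (vs p)
  rw [vs_zero, vs_one, vs_two, abs_one] at h
  have h2 := abs_conj_lt
  have h3 : |sF p| ≤ ‖sF‖ := sF.norm_coe_le_norm p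
  linarith

lemma continuous_vs : Continuous vs := by
  unfold vs
  refine (PiLp.continuous_toLp 2 _).comp (continuous_pi fun i => ?_)
  fin_cases i
  · exact continuous_const
  · exact continuous_const
  · exact sF.continuous

lemma subbundle_Es (Λ : Set (Torus 3)) : IsInvariantSubbundle fT Λ Es where
  continuousOn := by
    apply Continuous.continuousOn
    rw [continuous_clm_apply]
    intro w
    have h : (fun p => (Es p).starProjection w)
        = fun p => (inner ℝ (vs p) w / ‖vs p‖ ^ 2) • vs p := by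
      funext p
      unfold Es
      rw [Submodule.starProjection_singleton]
      rfl
    rw [h]
    have h1 : Continuous fun p => inner ℝ (vs p) w :=
      Continuous.inner continuous_vs continuous_const
    have h2 : Continuous fun p => ‖vs p‖ ^ 2 := continuous_vs.norm.pow 2
    have h3 : ∀ p, ‖vs p‖ ^ 2 ≠ 0 := fun p => by
      have := one_le_norm_vs p
      positivity
    exact (h1.div h2 h3).smul continuous_vs
  invariant := fun p _ => by
    rw [D_one]
    show (Submodule.span ℝ {vs p}).map _ = Submodule.span ℝ {vs (fFun p)}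
    rw [Submodule.map_span, Set.image_singleton]
    have : ((L p : Vec 3 →ₗ[ℝ] Vec 3)) (vs p) = ψ • vs (fFun p) := L_vs p
    rw [this]
    exact Submodule.span_singleton_smul_eq (IsUnit.mk0 _ Real.goldenConj_ne_zero) _

lemma Es_bound (p : Torus 3) (n : ℕ) (v : Vec 3) (hv : v ∈ Es p) (h1 : ‖v‖ = 1) :
    ‖D fT n p v‖ ≤ (2 + ‖sF‖) * |ψ| ^ n := by
  obtain ⟨c, rfl⟩ := Submodule.mem_span_singleton.mp hv
  rw [map_smul, D_vs, norm_smul, norm_smul, norm_pow]
  rw [norm_smul] at h1
  have h2 := one_le_norm_vs p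
  have h3 : ‖c‖ ≤ 1 := by
    have := norm_nonneg c
    nlinarith
  have h4 := norm_vs_le (fFun^[n] p)
  rw [Real.norm_eq_abs ψ]
  have h5 : 0 ≤ |ψ| ^ n := by positivity
  calc ‖c‖ * (|ψ| ^ n * ‖vs (fFun^[n] p)‖) ≤ 1 * (|ψ| ^ n * ‖vs (fFun^[n] p)‖) := by
        apply mul_le_mul_of_nonneg_right h3
        positivity
    _ ≤ 1 * (|ψ| ^ n * (2 + ‖sF‖)) := by
        apply mul_le_mul_of_nonneg_left _ zero_le_one
        exact mul_le_mul_of_nonneg_left h4 h5
    _ = (2 + ‖sF‖) * |ψ| ^ n := by ring

/-! ### The center-unstable bundle -/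

/-- The functional whose kernel is the center-unstable bundle. -/
noncomputable def lF : Vec 3 →ₗ[ℝ] ℝ := ((pr 0 - φ • pr 1 : Vec 3 →L[ℝ] ℝ) : Vec 3 →ₗ[ℝ] ℝ)

lemma lF_apply (v : Vec 3) : lF v = v 0 - φ * v 1 := rfl

/-- The center-unstable bundle. -/
noncomputable def Ecu (_p : Torus 3) : Submodule ℝ (Vec 3) := LinearMap.ker lF

lemma mem_Ecu (p : Torus 3) (v : Vec 3) : v ∈ Ecu p ↔ v 0 = φ * v 1 := by
  unfold Ecu
  rw [LinearMap.mem_ker, lF_apply, sub_eq_zero]

lemma lF_ne_zero : lF ≠ 0 := by
  intro h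
  have h1 : lF (WithLp.toLp 2 ![1, 0, 0]) = 0 := by rw [h]; rfl
  rw [lF_apply] at h1
  simp at h1

lemma finrank_Ecu (p : Torus 3) : Module.finrank ℝ (Ecu p) = 2 := by
  have h := Module.Dual.finrank_ker_add_one_of_ne_zero (f := lF) lF_ne_zero
  have h2 : Module.finrank ℝ (Vec 3) = 3 := by simp
  unfold Ecu
  omega

lemma L_mem_Ecu {p q : Torus 3} {v : Vec 3} (hv : v ∈ Ecu p) : L p v ∈ Ecu q := by
  rw [mem_Ecu] at hv ⊢
  rw [L_apply_zero, L_apply_one, hv]
  have := Real.goldenRatio_sq
  linear_combination (-v 1) * this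

lemma subbundle_Ecu (Λ : Set (Torus 3)) : IsInvariantSubbundle fT Λ Ecu where
  continuousOn := by
    show ContinuousOn (fun _ : Torus 3 => (LinearMap.ker lF).starProjection) Λ
    exact continuousOn_const
  invariant := fun p _ => by
    rw [D_one]
    apply le_antisymm
    · rintro _ ⟨v, hv, rfl⟩
      exact L_mem_Ecu hv
    · intro w hw
      obtain ⟨v, rfl⟩ := (L_bijective p).2 w
      refine ⟨v, ?_, rfl⟩
      rw [mem_Ecu] at hw
      rw [L_apply_zero, L_apply_one] at hw
      show v ∈ Ecu p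
      rw [mem_Ecu]
      have := Real.goldenRatio_sq
      have h1 : v 1 = (φ - 1) * v 0 := by linarith
      rw [h1]
      linear_combination (-v 0) * this

lemma isCompl_Es_Ecu (p : Torus 3) : IsCompl (Es p) (Ecu p) := by
  have hne : lF (vs p) ≠ 0 := by
    rw [lF_apply, vs_zero, vs_one, conj_eq]
    have := gold_lower
    intro h
    linarith
  constructor
  · rw [Submodule.disjoint_def]
    intro v hv hv2
    obtain ⟨c, rfl⟩ := Submodule.mem_span_singleton.mp hv
    have h1 : lF (c • vs p) = 0 := hv2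
    rw [map_smul, smul_eq_mul] at h1
    rcases mul_eq_zero.mp h1 with h | h
    · rw [h, zero_smul]
    · exact absurd h hne
  · rw [codisjoint_iff]
    exact LinearMap.span_singleton_sup_ker_eq_top lF hne

lemma exists_bound_b : ∃ B : ℝ, 0 ≤ B ∧ ∀ p, |φ * b0T p + b1T p| ≤ B := by
  obtain ⟨C, hC⟩ := (isCompact_univ (X := Torus 3)).exists_bound_of_continuousOn
    (f := fun p => φ * b0T p + b1T p) (by fun_prop)
  refine ⟨max C 0, le_max_right _ _, fun p => ?_⟩
  have := hC p (Set.mem_univ p)
  rw [Real.norm_eq_abs] at this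
  exact this.trans (le_max_left _ _)

lemma exists_Ecu_lower : ∃ c : ℝ, 0 < c ∧ ∀ (p : Torus 3) (n : ℕ) (w : Vec 3), w ∈ Ecu p →
    c * 0.64 ^ n * ‖w‖ ≤ ‖D fT n p w‖ := by
  obtain ⟨B, hB0, hB⟩ := exists_bound_b
  set K : ℝ := 2 * B + 1 with hK
  have hK1 : 1 ≤ K := by linarith
  have step : ∀ (n : ℕ) (p : Torus 3) (w : Vec 3), w ∈ Ecu p →
      0.64 ^ n * (K * |w 1| + |w 2|) ≤ K * |(D fT n p w) 1| + |(D fT n p w) 2| := by
    intro n
    induction n with
    | zero => intro p w _; rw [D_zero]; simp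
    | succ n ih =>
      intro p w hw
      rw [D_succ]
      refine le_trans ?_ (ih (fFun p) (L p w) (L_mem_Ecu hw))
      rw [pow_succ, mul_assoc]
      apply mul_le_mul_of_nonneg_left _ (by positivity)
      rw [L_apply_one, L_apply_two]
      rw [mem_Ecu] at hw
      rw [hw]
      have h1 : |φ * w 1| = φ * |w 1| := by
        rw [abs_mul, abs_of_pos Real.goldenRatio_pos]
      rw [h1]
      have h2 : b0T p * (φ * w 1) + b1T p * w 1 + slT p * w 2
          = (φ * b0T p + b1T p) * w 1 + slT p * w 2 := by ring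
      rw [h2]
      have h3 : |slT p * w 2| ≤ |(φ * b0T p + b1T p) * w 1 + slT p * w 2|
          + |(φ * b0T p + b1T p) * w 1| := by
        have := abs_sub ((φ * b0T p + b1T p) * w 1 + slT p * w 2) ((φ * b0T p + b1T p) * w 1)
        simpa using this
      have h4 : |(φ * b0T p + b1T p) * w 1| ≤ B * |w 1| := by
        rw [abs_mul]
        exact mul_le_mul_of_nonneg_right (hB p) (abs_nonneg _)
      have h5 : 0.64 * |w 2| ≤ |slT p * w 2| := by
        rw [abs_mul]
        apply mul_le_mul_of_nonneg_right _ (abs_nonneg _)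
        exact (slT_bounds p).1.trans (le_abs_self _)
      have h6 : 0.64 * (K * |w 1|) + B * |w 1| ≤ K * (φ * |w 1|) := by
        have h7 := gold_lower
        have h8 : 0.64 * K + B ≤ K * φ := by nlinarith
        nlinarith [abs_nonneg (w 1)]
      linarith
  refine ⟨1 / (3 * (K + 1)), by positivity, fun p n w hw => ?_⟩
  have h1 := step n p w hw
  have h2 : ‖w‖ ≤ 3 * (K * |w 1| + |w 2|) := by
    have h3 := norm_le_three w
    rw [mem_Ecu] at hw
    rw [hw, abs_mul, abs_of_pos Real.goldenRatio_pos] at h3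
    have h4 := gold_upper
    nlinarith [abs_nonneg (w 1), abs_nonneg (w 2)]
  have h3 : K * |(D fT n p w) 1| + |(D fT n p w) 2| ≤ (K + 1) * ‖D fT n p w‖ := by
    have h4 := abs_coord_le (D fT n p w) 1
    have h5 := abs_coord_le (D fT n p w) 2
    nlinarith
  have h4 : (0 : ℝ) < 0.64 ^ n := by positivity
  rw [show 1 / (3 * (K + 1)) * 0.64 ^ n * ‖w‖ = (0.64 ^ n * ‖w‖) / (3 * (K + 1)) by ring,
    div_le_iff₀ (by positivity)]
  calc 0.64 ^ n * ‖w‖ ≤ 0.64 ^ n * (3 * (K * |w 1| + |w 2|)) :=
        mul_le_mul_of_nonneg_left h2 h4.le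
    _ = 3 * (0.64 ^ n * (K * |w 1| + |w 2|)) := by ring
    _ ≤ 3 * ((K + 1) * ‖D fT n p w‖) := by linarith
    _ = ‖D fT n p w‖ * (3 * (K + 1)) := by ring

lemma isStableCenterUnstable (Λ : Set (Torus 3)) : IsStableCenterUnstable fT Λ Es Ecu where
  subbundle_s := subbundle_Es Λ
  subbundle_cu := subbundle_Ecu Λ
  isCompl := fun p _ => isCompl_Es_Ecu p
  nontrivial := fun p _ => by
    constructor
    · rw [Submodule.ne_bot_iff]
      exact ⟨vs p, Submodule.mem_span_singleton_self _, vs_ne_zero p⟩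
    · intro h
      have := finrank_Ecu p
      rw [h, finrank_bot] at this
      omega
  contracting := ⟨2 + ‖sF‖, |ψ|, by positivity, abs_conj_pos,
    by linarith [abs_conj_lt], fun p _ n v hv h1 => Es_bound p n v hv h1⟩
  dominated := by
    obtain ⟨c, hc, hlow⟩ := exists_Ecu_lower
    refine ⟨(2 + ‖sF‖) / c, |ψ| / 0.64, by positivity, ?_, ?_, fun p _ n v hv w hw h1 h2 => ?_⟩
    · have := abs_conj_pos
      positivity
    · rw [div_lt_one (by norm_num)]
      linarith [abs_conj_lt]
    · have h3 := Es_bound p n v hv h1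
      have h4 := hlow p n w hw
      rw [h2, mul_one] at h4
      refine h3.trans ?_
      have h5 : (2 + ‖sF‖) / c * (|ψ| / 0.64) ^ n * (c * 0.64 ^ n) = (2 + ‖sF‖) * |ψ| ^ n := by
        rw [div_pow]
        field_simp
      rw [← h5]
      apply mul_le_mul_of_nonneg_left h4
      have := abs_conj_pos
      positivity

end Pool.Agent.H.MP_40f8bf_an
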