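import Pool.Agent.H.MP_40f8bf_an.Inv

set_option autoImplicit false

open MeasureTheory Filter Topology ProbabilityTheory
open scoped ContDiff goldenRatio

namespace Pool.Agent.H.MP_40f8bf_an

/-! ### Small lifts -/

lemma norm_coe_eq {y : ℝ} (hy : |y| ≤ 1 / 2) : ‖(y : AddCircle (1 : ℝ))‖ = |y| := by
  rw [AddCircle.norm_coe_eq_abs_iff (1 : ℝ) one_ne_zero]
  simpa using hy

lemma norm_coe_le (y : ℝ) : ‖(y : AddCircle (1 : ℝ))‖ ≤ |y| := by
  rcases le_total |y| (1 / 2) with h | h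
  · exact (norm_coe_eq h).le
  · have := AddCircle.norm_le_half_period (p := (1 : ℝ)) (x := (y : AddCircle (1 : ℝ))) one_ne_zero
    rw [abs_one] at this
    exact this.trans h

lemma exists_lift (x : AddCircle (1 : ℝ)) : ∃ y : ℝ, |y| = ‖x‖ ∧ x = y := by
  obtain ⟨y, hy, hx⟩ := exists_small_rep x
  exact ⟨y, by rw [hx, norm_coe_eq hy], hx⟩

lemma coe_eq_of_small {x y : ℝ} (h : (x : AddCircle (1 : ℝ)) = y) (hxy : |x - y| < 1) :
    x = y := by
  rw [← sub_eq_zero, ← AddCircle.coe_sub, AddCircle.coe_eq_zero_iff] at h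
  obtain ⟨k, hk⟩ := h
  simp only [zsmul_eq_mul, mul_one] at hk
  rw [← hk] at hxy
  have h1 : |k| < 1 := by exact_mod_cast hxy
  have h2 : k = 0 := Int.abs_lt_one_iff.mp h1
  rw [h2] at hk
  simp only [Int.cast_zero] at hk
  linarith

/-! ### The unstable direction on the base -/

/-- The point of the unstable line through the origin. -/
noncomputable def ue (t : ℝ) : Torus 2 := ![((φ * t : ℝ) : AddCircle (1 : ℝ)), (t : AddCircle (1 : ℝ))]

lemma A2_ue (t : ℝ) : A2 (ue t) = ue (φ * t) := by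
  funext i
  fin_cases i
  · show ((φ * t : ℝ) : AddCircle (1 : ℝ)) + (t : AddCircle (1 : ℝ)) = ((φ * (φ * t) : ℝ) :
      AddCircle (1 : ℝ))
    rw [← AddCircle.coe_add]
    congr 1
    linear_combination (-t) * Real.goldenRatio_sq
  · rfl

lemma B2_ue (t : ℝ) : B2 (ue t) = ue (φ⁻¹ * t) := by
  have h1 : ue t = A2 (ue (φ⁻¹ * t)) := by
    rw [A2_ue]
    congr 1
    field_simp
  rw [h1, B2_A2]

lemma A2_iterate_ue (n : ℕ) (t : ℝ) : A2^[n] (ue t) = ue (φ ^ n * t) := by
  induction n with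
  | zero => simp
  | succ n ih => rw [Function.iterate_succ_apply', ih, A2_ue]; congr 1; ring

lemma B2_iterate_ue (n : ℕ) (t : ℝ) : B2^[n] (ue t) = ue ((φ⁻¹) ^ n * t) := by
  induction n with
  | zero => simp
  | succ n ih => rw [Function.iterate_succ_apply', ih, B2_ue]; congr 1; ring

lemma A2_iterate_B2 (n : ℕ) (z : Torus 2) : A2^[n] (B2^[n] z) = z :=
  (Function.LeftInverse.iterate (f := B2) (g := A2) A2_B2 n) z

lemma B2_iterate_sub (n : ℕ) (z w : Torus 2) : B2^[n] (z - w) = B2^[n] z - B2^[n] w :=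
  iterate_map_sub B2 n z w

lemma B2_iterate_add (n : ℕ) (z w : Torus 2) : B2^[n] (z + w) = B2^[n] z + B2^[n] w :=
  iterate_map_add B2 n z w

lemma dist_emb_ue (z : Torus 2) (t : ℝ) : dist (emb z) (emb (z + ue t)) ≤ φ * |t| := by
  have hφ := Real.one_lt_goldenRatio
  have ht := abs_nonneg t
  rw [dist_pi_le_iff (by positivity)]
  intro i
  fin_cases i
  · show dist (z 0) (z 0 + ((φ * t : ℝ) : AddCircle (1 : ℝ))) ≤ φ * |t|
    rw [dist_self_add_right]
    refine (norm_coe_le _).trans ?_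
    rw [abs_mul, abs_of_pos Real.goldenRatio_pos]
  · show dist (z 1) (z 1 + (t : AddCircle (1 : ℝ))) ≤ φ * |t|
    rw [dist_self_add_right]
    refine (norm_coe_le _).trans ?_
    nlinarith
  · show dist (0 : AddCircle (1 : ℝ)) 0 ≤ φ * |t|
    rw [dist_self]
    positivity

lemma mem_unstableSet (z : Torus 2) (t : ℝ) : emb (z + ue t) ∈ unstableSet fT (emb z) := by
  refine ⟨φ * |t|, Real.log φ, Real.log_pos Real.one_lt_goldenRatio, fun n => ?_⟩
  rw [symm_iterate_emb, symm_iterate_emb, B2_iterate_add, B2_iterate_ue]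
  refine (dist_emb_ue _ _).trans ?_
  have h1 : Real.exp (-Real.log φ * n) = (φ⁻¹) ^ n := by
    rw [show -Real.log φ * n = n * Real.log (φ⁻¹) by rw [Real.log_inv]; ring,
      Real.exp_nat_mul, Real.exp_log (inv_pos.mpr Real.goldenRatio_pos)]
  rw [h1, abs_mul, abs_of_pos (pow_pos (inv_pos.mpr Real.goldenRatio_pos) n)]
  linarith [mul_comm (φ⁻¹ ^ n) |t|]

lemma exists_ue_of_tendsto {w : Torus 2}
    (h0 : Tendsto (fun n : ℕ => ‖(B2^[n] w) 0‖) atTop (𝓝 0))
    (h1 : Tendsto (fun n : ℕ => ‖(B2^[n] w) 1‖) atTop (𝓝 0)) : ∃ t, w = ue t := by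
  choose a ha ha' using fun n : ℕ => exists_lift ((B2^[n] w) 0)
  choose b hb hb' using fun n : ℕ => exists_lift ((B2^[n] w) 1)
  have hev : ∀ᶠ n in atTop, ‖(B2^[n] w) 0‖ < 1 / 8 ∧ ‖(B2^[n] w) 1‖ < 1 / 8 :=
    (h0.eventually (gt_mem_nhds (by norm_num))).and (h1.eventually (gt_mem_nhds (by norm_num)))
  obtain ⟨N, hN⟩ := eventually_atTop.mp hev
  have hrec : ∀ n, N ≤ n → a (n + 1) = b n ∧ b (n + 1) = a n - b n := by
    intro n hn
    have h2 := hN n hn
    have h3 := hN (n + 1) (by omega)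
    rw [← ha n, ← hb n] at h2
    rw [← ha (n + 1), ← hb (n + 1)] at h3
    have e0 : (B2^[n + 1] w) 0 = (B2^[n] w) 1 := by rw [Function.iterate_succ_apply']; rfl
    have e1 : (B2^[n + 1] w) 1 = (B2^[n] w) 0 - (B2^[n] w) 1 := by
      rw [Function.iterate_succ_apply']; rfl
    rw [ha', hb'] at e0
    rw [hb' (n + 1), ha' n, hb' n, ← AddCircle.coe_sub] at e1
    obtain ⟨h4, h5⟩ := h2
    obtain ⟨h6, h7⟩ := h3
    rw [abs_lt] at h4 h5 h6 h7
    constructor
    · apply coe_eq_of_small e0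
      rw [abs_lt]
      constructor <;> linarith
    · apply coe_eq_of_small e1
      rw [abs_lt]
      constructor <;> linarith
  have hlam : ∀ k : ℕ, a (N + k) - φ * b (N + k) = (-φ) ^ k * (a N - φ * b N) := by
    intro k
    induction k with
    | zero => simp
    | succ k ih =>
      obtain ⟨h2, h3⟩ := hrec (N + k) (by omega)
      rw [show N + (k + 1) = (N + k) + 1 by ring, h2, h3, pow_succ, mul_right_comm, ← ih]
      linear_combination (-b (N + k)) * Real.goldenRatio_sq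
  have hzero : a N - φ * b N = 0 := by
    by_contra hne
    have hpos : 0 < |a N - φ * b N| := abs_pos.mpr hne
    have ht : Tendsto (fun k : ℕ => φ ^ k * |a N - φ * b N|) atTop atTop :=
      (tendsto_pow_atTop_atTop_of_one_lt Real.one_lt_goldenRatio).atTop_mul_const hpos
    obtain ⟨k, hk⟩ := (ht.eventually_gt_atTop 1).exists
    have h2 := hlam k
    have h3 : |a (N + k) - φ * b (N + k)| = φ ^ k * |a N - φ * b N| := by
      rw [h2, abs_mul, abs_pow, abs_neg, abs_of_pos Real.goldenRatio_pos]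
    rw [← h3] at hk
    have h4 := hN (N + k) (by omega)
    rw [← ha (N + k), ← hb (N + k)] at h4
    have h5 := abs_sub (a (N + k)) (φ * b (N + k))
    rw [abs_mul, abs_of_pos Real.goldenRatio_pos] at h5
    have h6 := gold_upper
    have h7 := abs_nonneg (b (N + k))
    nlinarith [h4.1, h4.2]
  refine ⟨φ ^ N * b N, ?_⟩
  have h2 : B2^[N] w = ue (b N) := by
    funext i
    fin_cases i
    · show (B2^[N] w) 0 = ((φ * b N : ℝ) : AddCircle (1 : ℝ))
      rw [ha' N]
      congr 1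
      linarith
    · exact hb' N
  rw [← A2_iterate_ue, ← h2, A2_iterate_B2]

/-! ### The fibre coordinate of points on the unstable manifold -/

/-- The logarithmic fibre expansion estimate. -/
noncomputable def Fx (p : Torus 3) : ℝ := Real.log (aT p + 120 * ‖p 2‖ ^ 2)

lemma arg_pos (p : Torus 3) : 0 < aT p + 120 * ‖p 2‖ ^ 2 := by
  have := (aT_bounds p).1
  have h2 : 0 ≤ ‖p 2‖ ^ 2 := by positivity
  linarith

lemma continuous_Fx : Continuous Fx := by
  unfold Fx
  apply Continuous.log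
  · exact continuous_aT.add (continuous_const.mul ((continuous_apply 2).norm.pow 2))
  · exact fun p => (arg_pos p).ne'

lemma Fx_emb (z : Torus 2) : Fx (emb z) = la z := by
  unfold Fx
  rw [show emb z 2 = 0 from rfl, aT_emb, norm_zero]
  simp

lemma norm_fFun_two_le (p : Torus 3) : ‖fFun p 2‖ ≤ Real.exp (Fx p) * ‖p 2‖ := by
  obtain ⟨y, hy, hpy⟩ := exists_lift (p 2)
  rw [fFun_two, hT_eq p y hpy]
  conv_lhs => rw [hpy, ← AddCircle.coe_add]
  refine (norm_coe_le _).trans ?_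
  refine (hR_abs_le (aT_bounds p).1 (aT_bounds p).2).trans ?_
  unfold Fx
  rw [Real.exp_log (arg_pos p), ← hy, sq_abs]

lemma fFun_symm (p : Torus 3) : fFun (fT.toHomeo.symm p) = p := fT.toHomeo.apply_symm_apply p

lemma fibre_eq_zero {z : Torus 2} {q : Torus 3} (hz : Tendsto
    (fun N : ℕ => (∑ k ∈ Finset.range N, la (B2^[k] z)) / N) atTop (𝓝 (-(7 / 40))))
    (hq : Tendsto (fun n : ℕ => dist (fT.toHomeo.symm^[n] (emb z)) (fT.toHomeo.symm^[n] q))
      atTop (𝓝 0)) : q 2 = 0 := by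
  set Q : ℕ → Torus 3 := fun n => fT.toHomeo.symm^[n] q with hQ
  have hstep : ∀ n, ‖Q n 2‖ ≤ Real.exp (Fx (Q (n + 1))) * ‖Q (n + 1) 2‖ := by
    intro n
    have h1 : fFun (Q (n + 1)) = Q n := by
      show fFun (fT.toHomeo.symm^[n + 1] q) = fT.toHomeo.symm^[n] q
      rw [Function.iterate_succ_apply', fFun_symm]
    have h2 := norm_fFun_two_le (Q (n + 1))
    rwa [h1] at h2
  have hprod : ∀ n : ℕ, ‖Q 0 2‖ * Real.exp (Fx (Q 0))
      ≤ Real.exp (∑ k ∈ Finset.range (n + 1), Fx (Q k)) * ‖Q n 2‖ := by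
    intro n
    induction n with
    | zero =>
      rw [Finset.sum_range_one]
      linarith [mul_comm (‖Q 0 2‖) (Real.exp (Fx (Q 0)))]
    | succ n ih =>
      refine ih.trans ?_
      rw [Finset.sum_range_succ _ (n + 1), Real.exp_add, mul_assoc]
      exact mul_le_mul_of_nonneg_left (hstep n) (Real.exp_pos _).le
  have hdiff : Tendsto (fun n : ℕ => Fx (Q n) - la (B2^[n] z)) atTop (𝓝 0) := by
    have huc := CompactSpace.uniformContinuous_of_continuous continuous_Fx
    have h1 : Tendsto (fun n : ℕ => (Q n, emb (B2^[n] z))) atTop (uniformity (Torus 3)) := by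
      rw [tendsto_uniformity_iff_dist_tendsto_zero]
      refine hq.congr fun n => ?_
      rw [symm_iterate_emb, dist_comm]
    have h2 := (tendsto_uniformity_iff_dist_tendsto_zero.mp (Tendsto.comp huc h1))
    rw [tendsto_zero_iff_abs_tendsto_zero]
    refine h2.congr fun n => ?_
    simp only [Function.comp_apply, Fx_emb, Real.dist_eq]
  have havg : Tendsto (fun N : ℕ => (∑ k ∈ Finset.range N, Fx (Q k)) / N) atTop
      (𝓝 (-(7 / 40))) := by
    have h1 := hdiff.cesaro.add hz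
    rw [zero_add] at h1
    refine h1.congr fun N => ?_
    rw [Finset.sum_sub_distrib]
    ring
  have hev : ∀ᶠ n : ℕ in atTop, ‖Q 0 2‖ * Real.exp (Fx (Q 0))
      ≤ Real.exp (-(1 / 8) * (n + 1 : ℕ)) * (1 / 2) := by
    have h1 : ∀ᶠ N : ℕ in atTop, (∑ k ∈ Finset.range N, Fx (Q k)) / N < -(1 / 8) :=
      havg.eventually (gt_mem_nhds (by norm_num))
    filter_upwards [(tendsto_add_atTop_nat 1).eventually h1] with n hn
    refine (hprod n).trans ?_
    have h2 : (0 : ℝ) < ((n + 1 : ℕ) : ℝ) := by positivity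
    have h3 : ∑ k ∈ Finset.range (n + 1), Fx (Q k) ≤ -(1 / 8) * ((n + 1 : ℕ) : ℝ) := by
      rw [div_lt_iff₀ h2] at hn
      exact hn.le
    have h4 : ‖Q n 2‖ ≤ 1 / 2 := by
      have := AddCircle.norm_le_half_period (p := (1 : ℝ)) (x := Q n 2) one_ne_zero
      rwa [abs_one] at this
    exact mul_le_mul (Real.exp_le_exp.mpr h3) h4 (norm_nonneg _) (Real.exp_pos _).le
  have hlim : Tendsto (fun n : ℕ => Real.exp (-(1 / 8) * (n + 1 : ℕ)) * (1 / 2)) atTop (𝓝 0) := by
    have h1 : Tendsto (fun n : ℕ => -(1 / 8) * ((n : ℕ) : ℝ)) atTop atBot :=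
      tendsto_natCast_atTop_atTop.const_mul_atTop_of_neg (by norm_num)
    have h2 := ((Real.tendsto_exp_atBot.comp h1).comp (tendsto_add_atTop_nat 1)).mul_const (1 / 2)
    rw [zero_mul] at h2
    exact h2
  have h5 : ‖Q 0 2‖ * Real.exp (Fx (Q 0)) ≤ 0 := ge_of_tendsto hlim hev
  have h6 : ‖Q 0 2‖ ≤ 0 := by
    by_contra hcon
    push Not at hcon
    have := mul_pos hcon (Real.exp_pos (Fx (Q 0)))
    linarith
  exact norm_le_zero_iff.mp h6

lemma unstableSet_subset {z : Torus 2} (hz : Tendsto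
    (fun N : ℕ => (∑ k ∈ Finset.range N, la (B2^[k] z)) / N) atTop (𝓝 (-(7 / 40))))
    {q : Torus 3} (hq : q ∈ unstableSet fT (emb z)) : ∃ t, q = emb (z + ue t) := by
  obtain ⟨C, c, hc, hq⟩ := hq
  have hlim : Tendsto (fun n : ℕ => dist (fT.toHomeo.symm^[n] (emb z)) (fT.toHomeo.symm^[n] q))
      atTop (𝓝 0) := by
    have h1 : Tendsto (fun n : ℕ => C * Real.exp (-c * n)) atTop (𝓝 (C * 0)) := by
      apply Tendsto.const_mul
      apply Real.tendsto_exp_atBot.comp
      exact tendsto_natCast_atTop_atTop.const_mul_atTop_of_neg (by linarith)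
    rw [mul_zero] at h1
    exact squeeze_zero (fun _ => dist_nonneg) hq h1
  have h2 := fibre_eq_zero hz hlim
  obtain ⟨w, hw⟩ : ∃ w : Torus 2, q = emb (z + w) :=
    ⟨![q 0, q 1] - z, by rw [add_sub_cancel]; exact exists_emb h2⟩
  subst hw
  have h3 : ∀ n : ℕ, fT.toHomeo.symm^[n] (emb (z + w)) = emb (B2^[n] z + B2^[n] w) := fun n => by
    rw [symm_iterate_emb, B2_iterate_add]
  have h4 : ∀ n (i : Fin 2), ‖(B2^[n] w) i‖
      ≤ dist (fT.toHomeo.symm^[n] (emb z)) (fT.toHomeo.symm^[n] (emb (z + w))) := by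
    intro n i
    rw [h3, symm_iterate_emb]
    have h5 := dist_le_pi_dist (emb (B2^[n] z)) (emb (B2^[n] z + B2^[n] w))
    fin_cases i
    · have h6 := h5 0
      have h7 : dist (emb (B2^[n] z) 0) (emb (B2^[n] z + B2^[n] w) 0) = ‖(B2^[n] w) 0‖ := by
        show dist ((B2^[n] z) 0) ((B2^[n] z) 0 + (B2^[n] w) 0) = _
        rw [dist_self_add_right]
      rwa [h7] at h6
    · have h6 := h5 1
      have h7 : dist (emb (B2^[n] z) 1) (emb (B2^[n] z + B2^[n] w) 1) = ‖(B2^[n] w) 1‖ := by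
        show dist ((B2^[n] z) 1) ((B2^[n] z) 1 + (B2^[n] w) 1) = _
        rw [dist_self_add_right]
      rwa [h7] at h6
  obtain ⟨t, ht⟩ := exists_ue_of_tendsto
    (squeeze_zero (fun _ => norm_nonneg _) (fun n => h4 n 0) hlim)
    (squeeze_zero (fun _ => norm_nonneg _) (fun n => h4 n 1) hlim)
  exact ⟨t, by rw [ht]⟩

lemma unstableSet_eq {z : Torus 2} (hz : Tendsto
    (fun N : ℕ => (∑ k ∈ Finset.range N, la (B2^[k] z)) / N) atTop (𝓝 (-(7 / 40)))) :
    unstableSet fT (emb z) = Set.range fun t : ℝ => emb (z + ue t) := by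
  apply Set.Subset.antisymm
  · intro q hq
    obtain ⟨t, ht⟩ := unstableSet_subset hz hq
    exact ⟨t, ht.symm⟩
  · rintro _ ⟨t, rfl⟩
    exact mem_unstableSet z t

end Pool.Agent.H.MP_40f8bf_an
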